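import Mathlib

set_option autoImplicit false

/-!
# CVD: covering lemma (distortion method) for MP_525bc7_nt (statements)

Paper proof: `/team-store/CVD_proof_helper99.md`.  Theorem U: for every `K` there is a Fibonacci-type sequence of composite
numbers such that every `n > 1` which for every `d` has at most `exp (K √(log d))` prime factors of rank of apparition `d`
is coprime to some term.

Convention: module XXX is the file `Pool/Agent/CVD/XXX.lean` with `theorem thm_XXX (hypotheses as listed) : St_XXX`,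
namespace `Pool.Agent.CVD`, one import `Pool.Agent.CVD.Stmts` (and Mathlib).
-/

namespace Pool.Agent.CVD

open Finset

/-- allowed multiplicity of the modulus `D` -/
noncomputable def mm (K : ℝ) (D : ℕ) : ℝ := Real.exp (K * (1 + Real.sqrt (Real.log D)))

/-- bound for the mass of a residue class modulo `D`: `2^ω(D) / φ(D)` -/
noncomputable def hh (D : ℕ) : ℝ := 2 ^ D.primeFactors.card / (D.totient : ℝ)

/-- mass of the residue class of `c` modulo `D` -/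
noncomputable def cls (Q : ℕ) (w : ℕ → ℝ) (D c : ℕ) : ℝ :=
  ∑ x ∈ (range Q).filter (fun x => x % D = c % D), w x

/-- weights on `ℤ/Q` (as a function on `range Q`) after the primes `< t` have been treated -/
structure Inv (R : Finset ℕ) (ρ : ℕ → ℕ) (t Q : ℕ) (w : ℕ → ℝ) : Prop where
  nonneg : ∀ x, 0 ≤ w x
  total : ∑ x ∈ range Q, w x = 1
  supp : ∀ x ∈ range Q, w x ≠ 0 → ∀ l ∈ R, l < t → x % l ≠ ρ l
  bound : ∀ D c : ℕ, D ∣ Q → cls Q w D c ≤ hh D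

/-- the part of `D` which is a power of `l` -/
def pe (l D : ℕ) : ℕ := l ^ D.factorization l

/-- the cofactor, prime to `l` -/
def co (l D : ℕ) : ℕ := D / l ^ D.factorization l

/-- contribution of a pair of moduli to the second moment -/
noncomputable def gg (l D D' : ℕ) : ℝ :=
  hh (Nat.lcm (co l D) (co l D')) / (((pe l D).totient : ℝ) * ((pe l D').totient : ℝ))

/-- every modulus `D` occurs at most `mm K D` times -/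
def Mult (K : ℝ) (J : Finset ℕ) (d : ℕ → ℕ) : Prop :=
  ∀ D : ℕ, ((J.filter (fun i => d i = D)).card : ℝ) ≤ mm K D

/-- [Step] one step of the distortion method, from `Q` to `Q l^e`.

PROOF.  Every `x' < Q l^e` is `x + Q k` with unique `x < Q`, `k < l^e` (`x = x' % Q`), so `∑_{x' < Q l^e} f x' =
∑_{x < Q} ∑_{k < l^e} f (x + Q k)`.  For fixed `x`, `a ≤ e`, `c` at most `l^(e-a)` of the `k < l^e` satisfy
`(x + Q k) % l^a = c` (`Q` is invertible mod `l^a`: one class of `k` mod `l^a`).  Let `F x` be the set of the `k < l^e` with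
(`l ∈ R → (x + Q k) % l ≠ ρ l`); `f_x = |F x| ≥ l^e - l^(e-1) = l^(e-1) (l - 1) > 0`.  `α x = |{k ∈ F x : B (x + Q k)}| / f_x`, so
`α x ≤ |{k < l^e : B (x + Q k)}| / (l^(e-1) (l-1)) =: β x`.  Put, for `x' = x + Q k`,
`w' x' = w x / f_x * g`, `g = 0` if `k ∉ F x`; for `k ∈ F x`: `g = 1` if `α x > 1/2`, and, if `α x ≤ 1/2`, `g = 0` if `B x'` and
`g = 1/(1 - α x)` otherwise.  (`w' x' = 0` outside `range (Q l^e)` or use the same formula with `x' % Q`, `x' / Q`.)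
* `∑_k w' (x + Q k) = w x` (both cases): total and the second claim.
* `0 ≤ w' x' ≤ 2 w x / f_x`.
* supp: `l ∈ R`: by `F`.  `q ∈ R`, `q < l`: `q ∣ Q`, so `x' % q = x % q`, and `w x ≠ 0`.
* bound for `D ∣ Q l^e`: `D = D₀ l^a` with `D₀ ∣ Q`, `a ≤ e`.  If `a = 0`: `D ∣ Q`, the class depends on `x' % Q` only: second
  claim and `Inv.bound`.  If `a ≥ 1`: `x' = c mod D` implies `x = c mod D₀` and `x' = c mod l^a`, so the mass is at most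
  `∑_{x = c mod D₀} l^(e-a) * 2 w x/(l^(e-1)(l-1)) = 2/φ(l^a) * cls Q w D₀ c ≤ 2/φ(l^a) * hh D₀ = hh D`
  (`φ(l^a) = l^(a-1)(l-1)`, totient multiplicative, `primeFactors` of `D₀ l^a` are those of `D₀` and `l`).
* `B`: for `α x ≤ 1/2` nothing is left in `B`; for `α x > 1/2` the mass over `x` is `w x * α x ≤ 2 w x (α x)^2 ≤ 2 w x (β x)^2`. -/
def St_Step : Prop := ∀ (R : Finset ℕ) (ρ : ℕ → ℕ) (l Q e : ℕ) (w : ℕ → ℝ) (B : ℕ → Prop) [DecidablePred B],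
  l.Prime → 1 ≤ Q → Q.Coprime l → 1 ≤ e → (∀ q ∈ R, q < l → q ∣ Q) → Inv R ρ l Q w →
  ∃ w' : ℕ → ℝ, Inv R ρ (l + 1) (Q * l ^ e) w' ∧
    (∀ (S : ℕ → Prop) [DecidablePred S], ∑ x ∈ (range (Q * l ^ e)).filter (fun x => S (x % Q)), w' x =
      ∑ x ∈ (range Q).filter S, w x) ∧
    ∑ x ∈ (range (Q * l ^ e)).filter B, w' x ≤
      2 * ∑ x ∈ range Q, w x * ((((range (l ^ e)).filter (fun k => B (x + Q * k))).card : ℝ) /
        ((l : ℝ) ^ (e - 1) * ((l : ℝ) - 1))) ^ 2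

/-- [Mom] the second moment for a union of residue classes.

PROOF.  For `i ∈ J` write `D = d i`, `a = D.factorization l`; `D ∣ Q l^e`, `¬ D ∣ Q` give `1 ≤ a ≤ e`, `pe l D = l^a`,
`co l D ∣ Q`, `D = co l D * pe l D`.  `(x + Q k) % D = c i` implies `x % co l D = c i % co l D` (as `co l D ∣ Q`) and
`(x + Q k) % l^a = c i % l^a`, which has at most `l^(e-a)` solutions `k < l^e` (`Q` invertible mod `l^a`).
`l^(e-a)/(l^(e-1)(l-1)) = 1/φ(l^a)`.  So the quotient (call it `β x ≥ 0`) is at most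
`∑_{i ∈ J} (if x % co l (d i) = c i % co l (d i) then 1 else 0)/φ(pe l (d i))`.  Square, multiply by `w x ≥ 0`, sum over `x`:
`∑_{i,i'} (φ φ')⁻¹ ∑_{x : both congruences} w x`, and the two congruences put `x` into one class modulo
`lcm (co l (d i)) (co l (d i'))` (if there is such an `x₀`, the set is contained in the class of `x₀`), a divisor of `Q`:
`≤ hh (lcm ..)` by `Inv.bound` (if there is no `x₀` the sum is `0 ≤ hh`). -/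
def St_Mom : Prop := ∀ (R : Finset ℕ) (ρ : ℕ → ℕ) (t l Q e : ℕ) (w : ℕ → ℝ) (J : Finset ℕ) (d c : ℕ → ℕ),
  l.Prime → 1 ≤ Q → Q.Coprime l → 1 ≤ e → Inv R ρ t Q w → (∀ i ∈ J, d i ∣ Q * l ^ e ∧ ¬ d i ∣ Q) →
  ∑ x ∈ range Q, w x * ((((range (l ^ e)).filter (fun k => ∃ i ∈ J, (x + Q * k) % d i = c i)).card : ℝ) /
    ((l : ℝ) ^ (e - 1) * ((l : ℝ) - 1))) ^ 2 ≤ ∑ i ∈ J, ∑ i' ∈ J, gg l (d i) (d i')

/-- [Eul] sum of a multiplicative function over the divisors of `Q`.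

PROOF.  Induction on `Q` by `Nat.recOnPosPrimePosCoprime` (or over the primes): for coprime `m n` the divisors of `m n` are the
products (`Nat.Coprime.sum_divisors_mul` / `Nat.divisors_mul` and injectivity), so `∑_{L ∣ Q} f L =
∏_{p ∣ Q} ∑_{k ≤ v_p(Q)} f (p^k)`; `f 1 = 1`. -/
def St_Eul : Prop := ∀ f b : ℕ → ℝ, (∀ n, 0 ≤ f n) → f 1 = 1 → (∀ m n : ℕ, m.Coprime n → f (m * n) = f m * f n) →
  ∀ Q : ℕ, 1 ≤ Q → (∀ p ∈ Q.primeFactors, ∑ k ∈ Icc 1 (Q.factorization p), f (p ^ k) ≤ b p) →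
  ∑ L ∈ Q.divisors, f L ≤ ∏ p ∈ Q.primeFactors, (1 + b p)

/-- [G1] the multiplicity against a power.

PROOF.  `x = log D ≥ 0`, `y = log l > 0`, `c = 2 K^2 + 1`: `K √x ≤ (c/y) x + K^2 y/(4 c)` (AM-GM:
`(√(c x/y) - K √y/(2 √c))^2 ≥ 0`) and `K^2/(4 c) ≤ 1/8`.  Exponentiate. -/
def St_G1 : Prop := ∀ (K : ℝ) (l D : ℕ), 0 ≤ K → 2 ≤ l → 1 ≤ D →
  mm K D ≤ Real.exp K * (l : ℝ) ^ (1 / 8 : ℝ) * (D : ℝ) ^ ((2 * K ^ 2 + 1) / Real.log l)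

/-- [G2] pairs of divisors are grouped by their least common multiple.

PROOF.  `(q, q') ↦ L = lcm q q'` maps into the divisors of `Q`; the pairs with `lcm = L` lie in `L.divisors ×ˢ L.divisors`, and
`q^ε q'^ε ≤ L^(2 ε)` since `q, q' ≤ L` (`Finset.sum_fiberwise_of_maps_to`, `hh ≥ 0`). -/
def St_G2 : Prop := ∀ (Q : ℕ) (ε : ℝ), 1 ≤ Q → 0 ≤ ε →
  ∑ q ∈ Q.divisors, ∑ q' ∈ Q.divisors, (q : ℝ) ^ ε * (q' : ℝ) ^ ε * hh (Nat.lcm q q') ≤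
    ∑ L ∈ Q.divisors, (L.divisors.card : ℝ) ^ 2 * (L : ℝ) ^ (2 * ε) * hh L

/-- [G3] the Euler product.  HYPS: `(h0 : St_Eul)`.

PROOF.  `ε = c/log l`, `f L = τ(L)^2 L^(2ε) hh L` is multiplicative, `f ≥ 0`, `f 1 = 1`.  For a prime `p < l` and `k ≥ 1`:
`f (p^k) = (k+1)^2 p^(2 ε k) * 2/φ(p^k) ≤ 4 (k+1)^2 r^k` with `r = p^(2ε - 1)` (`φ(p^k) ≥ p^k/2`).  For `l ≥ y₀` we have `2 ε ≤ 1/4`, so
`r ≤ p^(-3/4) ≤ 3/5` (`2^(-3/4) = 0.5946`); and `p^(2ε) ≤ l^(2ε) = e^(2c)`, so `r ≤ e^(2c)/p`.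
`∑_{k=1}^{v} (k+1)^2 r^k ≤ r ∑_{k ≥ 0} (k+2)^2 (3/5)^k = 40 r` (any constant will do; e.g. prove
`∑_{k=1}^{v} (k+1)^2 r^k ≤ C r` from summability of `(k+2)^2 (3/5)^k`).  So `b p = 160 e^(2c)/p`, and `St_Eul` gives the bound
`∏_{p ∣ Q} (1 + b p) ≤ exp (160 e^(2c) ∑_{p < l} 1/p) ≤ exp (C₁ (log log l + 8))` (e.g.
`Pool/Agent/RMS/SER.lean`, `Pool/Agent/Helper73/OmegaShift/Core.lean` line 157: `∑_{p ≤ z} 1/p ≤ log log z + 8`)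
`= e^(8 C₁) (log l)^C₁ ≤ C l^(1/4)`. -/
def St_G3 : Prop := ∀ c : ℝ, 0 ≤ c → ∃ (C : ℝ) (y₀ : ℕ), 0 ≤ C ∧ ∀ l Q : ℕ, y₀ ≤ l → 1 ≤ Q →
  (∀ p : ℕ, p.Prime → p ∣ Q → p < l) →
  ∑ L ∈ Q.divisors, (L.divisors.card : ℝ) ^ 2 * (L : ℝ) ^ (2 * (c / Real.log l)) * hh L ≤ C * (l : ℝ) ^ (1 / 4 : ℝ)

/-- [G] the second moment is summable over the primes `l`.  HYPS: `(h1 : St_G1) (h2 : St_G2) (h3 : St_G3)`.

PROOF.  `c = 2 K^2 + 1`, `ε = c/log l`.  `gg ≥ 0`.  Let `𝒟` be the set of the divisors `D` of `Q l^e` with `¬ D ∣ Q`; `D ↦ (co l D, a)`,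
`a = D.factorization l`, is an injection of `𝒟` into `Q.divisors × [1, e]` (`D = co l D * l^a`; `l` does not divide `Q` because the
primes of `Q` are `< l`).  Group `i ∈ J` by `D = d i` and use `Mult`:
`∑_{i,i'} gg l (d i) (d i') ≤ ∑_{D,D' ∈ 𝒟} mm K D * mm K D' * gg l D D'`; by `St_G1` and `D^ε = (co l D)^ε l^(ε a) = (co l D)^ε e^(c a)`
(`l^ε = e^c`) this is at most
`e^(2K) l^(1/4) (∑_{a=1}^{e} e^(c a)/φ(l^a))^2 * ∑_{q,q' ∣ Q} q^ε q'^ε hh (lcm q q')`.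
`φ(l^a) ≥ l^a/2`, and for `l ≥ 2 e^c` the first sum is at most `2 ∑_{a ≥ 1} (e^c/l)^a ≤ 4 e^c/l`.  The last sum is at most
`C₃ l^(1/4)` (`St_G2`, `St_G3`).  Total `16 e^(2K+2c) C₃ l^(1/4 + 1/4 - 2)`. -/
def St_G : Prop := ∀ K : ℝ, 0 ≤ K → ∃ (C : ℝ) (y₀ : ℕ), 0 ≤ C ∧ ∀ (l Q e : ℕ) (J : Finset ℕ) (d : ℕ → ℕ),
  l.Prime → y₀ ≤ l → 1 ≤ Q → (∀ p : ℕ, p.Prime → p ∣ Q → p < l) →
  (∀ i ∈ J, d i ∣ Q * l ^ e ∧ ¬ d i ∣ Q) → Mult K J d →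
  ∑ i ∈ J, ∑ i' ∈ J, gg l (d i) (d i') ≤ C / (l : ℝ) ^ (3 / 2 : ℝ)

/-- [T] the first stage.  HYPS: `(h0 : St_Eul)`.

PROOF.  Group by `D = d i`: the sum is at most `∑_{D ∣ Q, D ≥ Z₀} mm K D * hh D`.  `K √x ≤ x/8 + 2 K^2`, so
`mm K D ≤ e^(K + 2 K^2) D^(1/8) ≤ e^(K + 2K^2) Z₀^(-1/8) D^(1/4)` for `D ≥ Z₀`.  `f D = D^(1/4) hh D` is multiplicative,
`f (p^k) = p^(k/4) * 2/φ(p^k) ≤ 4 p^(-3k/4) ≤ 4 (3/5)^k`, `∑_{k ≥ 1} f (p^k) ≤ 6 =: b p`; by `St_Eul` `∑_{D ∣ Q} f D ≤ ∏_{p ∣ Q} 7 ≤ 7^y`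
(the primes of `Q` are `< y`).  Choose `Z₀` with `e^(K + 2K^2) 7^y ≤ Z₀^(1/8)/4`. -/
def St_T : Prop := ∀ (K : ℝ) (y : ℕ), 0 ≤ K → ∃ Z₀ : ℕ, 1 ≤ Z₀ ∧ ∀ (Q : ℕ) (J : Finset ℕ) (d : ℕ → ℕ),
  1 ≤ Q → (∀ p : ℕ, p.Prime → p ∣ Q → p < y) → (∀ i ∈ J, Z₀ ≤ d i ∧ d i ∣ Q) → Mult K J d →
  ∑ i ∈ J, hh (d i) ≤ 1 / 4

/-- [Cov] THE COVERING LEMMA.  HYPS: `(h0 : St_Step) (h1 : St_Mom) (h2 : St_G) (h3 : St_T)`.

PROOF.  `C, y₀` from `St_G`; `y ≥ y₀`, `y ≥ 2` with `∑_{l ≥ y} 2 C l^(-3/2) ≤ 1/4` (all finite sums; tail of a summable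
series); `Z₀` from `St_T`.  `N = (∏_{i ∈ I} d i) * ∏_{l ∈ R} l ≥ 1`; `Q t = ∏_{p < t prime} p^(N.factorization p)` (so `Q 0 = 1`,
`Q (t+1) = Q t * t^(v_t N)` for `t` prime, `= Q t` otherwise, `Q t = N` for `t > N`, a divisor of `N` whose primes are `< t`
divides `Q t`, the primes of `Q t` are `< t`).  `Kill t x := ∃ i ∈ I, d i ∣ Q t ∧ x % d i = c i`.
Claim A (all `t`): there is `w` with `Inv R ρ t (Q t) w`.  `t = 0`: `w = 1`; `t` not prime or `v_t N = 0` (then `t ∉ R`): same `w`;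
else `St_Step` with `B = False`.
Claim B (all `t ≥ y`): there is `w` with `Inv R ρ t (Q t) w` and `∑_{x < Q t, Kill t x} w x ≤ 1/4 + ∑_{l ∈ [y, t)} 2 C l^(-3/2)`.
`t = y`: Claim A, union bound over the `i` with `d i ∣ Q y`: `∑ cls (Q y) w (d i) (c i) ≤ ∑ hh (d i) ≤ 1/4` by `Inv.bound`, `St_T`.
Step `t = l` prime, `e = v_l N ≥ 1`: `J = {i ∈ I : d i ∣ Q (l+1), ¬ d i ∣ Q l}`, `B x = ∃ i ∈ J, x % d i = c i`; `Kill (l+1) x` implies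
`Kill l (x % Q l)` (`(x % Q l) % d i = x % d i` if `d i ∣ Q l`) or `B x`; `St_Step`, `St_Mom`, `St_G`.
End: `t = max (N+1) y`, killed mass `≤ 1/2 < 1`: some `x < N` has `w x > 0` and is not killed; all `d i ∣ N`, all `l ∈ R` are `< t`. -/
def St_Cov : Prop := ∀ K : ℝ, 0 ≤ K → ∃ Z₀ : ℕ, 1 ≤ Z₀ ∧ ∀ (R : Finset ℕ) (ρ : ℕ → ℕ), (∀ l ∈ R, l.Prime) →
  ∀ (I : Finset ℕ) (d c : ℕ → ℕ), (∀ i ∈ I, Z₀ ≤ d i) → Mult K I d →
  ∃ j : ℕ, (∀ l ∈ R, j % l ≠ ρ l) ∧ ∀ i ∈ I, j % d i ≠ c i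

/-- rank of apparition in the Fibonacci numbers -/
noncomputable def rank (p : ℕ) : ℕ := sInf {z : ℕ | 0 < z ∧ p ∣ Nat.fib z}

/-- [U] THE RESULT.  HYPS: `(h0 : St_Cov)`; the lemmas of `Pool/Agent/CVD/Fam.lean` (family `A s t`, from `FewPrimes`).

PROOF.  See `/team-store/CVD_proof_helper99.md`, proof of U. -/
def St_U : Prop := ∀ K : ℕ, ∃ a : ℕ → ℕ, (∀ n, a (n + 2) = a (n + 1) + a n) ∧
  (∀ k, 1 < a k ∧ ¬ (a k).Prime) ∧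
  ∀ n : ℕ, 1 < n → (∀ d : ℕ, ((n.primeFactors.filter (fun p => rank p = d)).card : ℝ) ≤
    Real.exp (K * Real.sqrt (Real.log d))) → ∃ k, Nat.gcd n (a k) = 1

end Pool.Agent.CVD
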