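import Pool.Agent.CVD.Stmts

/-!
# CVD: the sum of a multiplicative function over the divisors (helper81)
-/

set_option autoImplicit false

namespace Pool.Agent.CVD

open Finset

theorem eul_coprime (f : ℕ → ℝ) (hm : ∀ m n : ℕ, m.Coprime n → f (m * n) = f m * f n) (a b : ℕ)
    (hab : a.Coprime b) :
    ∑ L ∈ (a * b).divisors, f L = (∑ L ∈ a.divisors, f L) * ∑ L ∈ b.divisors, f L := by
  rw [Nat.divisors_mul, Finset.sum_mul_sum, ← Finset.sum_product']
  symm
  refine Finset.sum_nbij (fun q => q.1 * q.2) ?_ ?_ ?_ ?_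
  · rintro ⟨x, y⟩ h
    rw [Finset.mem_product] at h
    exact Finset.mul_mem_mul h.1 h.2
  · rintro ⟨x, y⟩ h ⟨x', y'⟩ h' he
    have h1 := Finset.mem_product.1 (Finset.mem_coe.1 h)
    have h2 := Finset.mem_product.1 (Finset.mem_coe.1 h')
    simp only at h1 h2 he
    have hx := Nat.dvd_of_mem_divisors h1.1
    have hy := Nat.dvd_of_mem_divisors h1.2
    have hx' := Nat.dvd_of_mem_divisors h2.1
    have hy' := Nat.dvd_of_mem_divisors h2.2
    have c1 : x.Coprime y' := Nat.Coprime.coprime_dvd_left hx (Nat.Coprime.coprime_dvd_right hy' hab)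
    have c2 : x'.Coprime y := Nat.Coprime.coprime_dvd_left hx' (Nat.Coprime.coprime_dvd_right hy hab)
    have d1 : x ∣ x' := c1.dvd_of_dvd_mul_right (he ▸ dvd_mul_right x y)
    have d2 : x' ∣ x := c2.dvd_of_dvd_mul_right (he.symm ▸ dvd_mul_right x' y')
    have e1 : x = x' := Nat.dvd_antisymm d1 d2
    subst e1
    have hx0 : 0 < x := Nat.pos_of_mem_divisors h1.1
    have e2 : y = y' := Nat.eq_of_mul_eq_mul_left hx0 he
    rw [e2]
  · intro z hz
    obtain ⟨x, hx, y, hy, rfl⟩ := Finset.mem_mul.1 (Finset.mem_coe.1 hz)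
    exact ⟨(x, y), Finset.mem_coe.2 (Finset.mem_product.2 ⟨hx, hy⟩), rfl⟩
  · rintro ⟨x, y⟩ h
    rw [Finset.mem_product] at h
    exact (hm x y (Nat.Coprime.coprime_dvd_left (Nat.dvd_of_mem_divisors h.1)
      (Nat.Coprime.coprime_dvd_right (Nat.dvd_of_mem_divisors h.2) hab))).symm

theorem thm_Eul : St_Eul := by
  intro f b hf h1 hm Q
  induction Q using Nat.recOnPosPrimePosCoprime with
  | prime_pow p n hp hn =>
    intro _ hb
    rw [Nat.primeFactors_prime_pow hn.ne' hp] at hb ⊢
    have h2 := hb p (Finset.mem_singleton_self p)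
    rw [hp.factorization_pow, Finsupp.single_eq_same] at h2
    rw [Finset.prod_singleton, Nat.sum_divisors_prime_pow hp, Finset.sum_range_succ', pow_zero, h1,
      add_comm]
    have h3 : ∑ k ∈ Finset.range n, f (p ^ (k + 1)) = ∑ k ∈ Finset.Icc 1 n, f (p ^ k) := by
      rw [Finset.range_eq_Ico, Finset.sum_Ico_add' (fun k => f (p ^ k)) 0 n 1]
      rfl
    rw [h3]
    linarith
  | zero =>
    intro h
    omega
  | one =>
    intro _ _
    simp [h1]
  | coprime m n hm1 hn1 hmn ihm ihn =>
    intro _ hb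
    have hdis : Disjoint m.primeFactors n.primeFactors := hmn.disjoint_primeFactors
    rw [hmn.primeFactors_mul] at hb ⊢
    rw [eul_coprime f hm m n hmn, Finset.prod_union hdis]
    have em := ihm (by omega) fun p hp => by
      have h2 := hb p (Finset.mem_union_left _ hp)
      have hp' : p ∈ m.primeFactorsList := by
        rw [Nat.mem_primeFactorsList (by omega)]
        exact ⟨Nat.prime_of_mem_primeFactors hp, Nat.dvd_of_mem_primeFactors hp⟩
      rwa [Nat.factorization_eq_of_coprime_left hmn hp'] at h2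
    have en := ihn (by omega) fun p hp => by
      have h2 := hb p (Finset.mem_union_right _ hp)
      have hp' : p ∈ n.primeFactorsList := by
        rw [Nat.mem_primeFactorsList (by omega)]
        exact ⟨Nat.prime_of_mem_primeFactors hp, Nat.dvd_of_mem_primeFactors hp⟩
      rwa [Nat.factorization_eq_of_coprime_right hmn hp'] at h2
    have nm : 0 ≤ ∑ L ∈ n.divisors, f L := Finset.sum_nonneg fun L _ => hf L
    have nm' : 0 ≤ ∑ L ∈ m.divisors, f L := Finset.sum_nonneg fun L _ => hf L
    exact mul_le_mul em en nm (nm'.trans em)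

end Pool.Agent.CVD
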