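import Mathlib

set_option autoImplicit false

/-!
# CVD / Fam: the family `A s t` of Fibonacci-type sequences (copy of the lemmas of `FewPrimes`, helper89)
-/

namespace Pool.Agent.CVD

/-- Shift formula for Fibonacci-type sequences. -/
lemma add_formula (a : ℕ → ℕ) (ha : ∀ n, a (n + 2) = a (n + 1) + a n) (m n : ℕ) :
    a (m + n + 1) = a m * Nat.fib n + a (m + 1) * Nat.fib (n + 1) := by
  induction n using Nat.twoStepInduction with
  | zero => simp
  | one => simp only [Nat.fib_one, mul_one, show Nat.fib (1 + 1) = 1 from rfl]; rw [ha (m)]; ring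
  | more n h1 h2 =>
    have h3 : a (m + (n + 2) + 1) = a (m + (n + 1) + 1) + a (m + n + 1) := ha (m + n + 1)
    rw [h3, h1, h2, Nat.fib_add_two (n := n + 1), Nat.fib_add_two (n := n)]
    ring

/-- The covering of the odd indices: entries `(z, r, m, x)`; the class is `r` modulo `z`. -/
def classes : List (ℕ × ℕ × ℕ × ℕ) :=
  [(3, 1, 2, 1),
    (5, 4, 5, 4),
    (7, 3, 13, 2),
    (14, 11, 29, 10),
    (9, 6, 17, 8),
    (20, 1, 41, 9),
    (28, 7, 281, 125),
    (15, 2, 61, 61),
    (40, 33, 2161, 489),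
    (21, 5, 421, 162),
    (60, 5, 2521, 1022),
    (35, 23, 141961, 53237),
    (72, 27, 103681, 1761),
    (80, 15, 3041, 1050),
    (80, 31, 1601, 407),
    (90, 57, 181, 54),
    (45, 30, 109441, 55442),
    (90, 27, 541, 8),
    (120, 35, 241, 105),
    (126, 125, 31249, 10231),
    (120, 93, 20641, 1700),
    (112, 71, 10745088481, 3028648824),
    (63, 20, 35239681, 8881545),
    (140, 51, 12317523121, 9339920847),
    (126, 41, 1009, 312),
    (144, 135, 10749957121, 4946251725),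
    (180, 45, 10783342081, 4262177499),
    (240, 63, 23735900452321, 15011229887605),
    (105, 8, 8288823481, 4736470560),
    (280, 211, 118021448662479038881, 27980625673147320949),
    (252, 111, 1461601, 745000),
    (252, 75, 764940961, 303007495),
    (360, 3, 8641, 791),
    (336, 23, 115613939510481515041, 32354770544501129326),
    (420, 413, 721561, 104962)]

/-- The common residue of the second initial value. -/
def X : ℕ := 52518486918490312204794055399621031035984391848367840509198805709479635665021429763236499654094163614164152323803485774662148534356842680671496974943363420132323226466106248399041217343686764298009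

/-- The product of the moduli. -/
def M : ℕ := 125897163326435849175636761300728027416534963337437909003234172239630614774038049492657438559893244892197017224645407623981868712540425709000966512617265853419452801940451367091165857466871968772090

lemma cover0 : ∀ i < 72, ∀ j < 70, (70 * i + j) % 2 = 1 →
    ∃ c ∈ classes, (70 * i + j) % c.1 = c.2.1 := by
  decide +kernel

lemma cover (k : ℕ) (hk : k < 5040) (h : k % 2 = 1) : ∃ c ∈ classes, k % c.1 = c.2.1 := by
  have h1 := cover0 (k / 70) (by omega) (k % 70) (Nat.mod_lt _ (by norm_num))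
  rw [Nat.div_add_mod] at h1
  exact h1 h

lemma cover' (k : ℕ) (hk : k % 2 = 1) : ∃ c ∈ classes, k % c.1 = c.2.1 := by
  have hz : ∀ c ∈ classes, c.1 ∣ 5040 := by decide +kernel
  obtain ⟨c, hc, h⟩ := cover (k % 5040) (Nat.mod_lt _ (by norm_num)) (by omega)
  exact ⟨c, hc, by rw [← h, Nat.mod_mod_of_dvd _ (hz c hc)]⟩

lemma data_fib : ∀ c ∈ classes, c.2.2.1 ∣ Nat.fib c.1 := by
  simp only [classes, List.forall_mem_cons]
  norm_num

lemma data_zero : ∀ c ∈ classes, c.2.2.1 ∣
    (2 * c.2.2.2 - 1) * Nat.fib (c.2.1 - 1) + (1 + c.2.2.2 ^ 2) * Nat.fib c.2.1 := by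
  simp only [classes, List.forall_mem_cons]
  norm_num

lemma data_misc : ∀ c ∈ classes, 1 ≤ c.2.1 ∧ c.2.1 < c.1 ∧ 1 < c.2.2.1 ∧ 1 ≤ c.2.2.2 ∧
    c.2.2.1 ∣ M ∧ X % c.2.2.1 = c.2.2.2 % c.2.2.1 := by
  decide +kernel

lemma M_dvd : M ∣ Nat.fib 5040 := by
  unfold M; norm_num

lemma X_coprime : Nat.Coprime (2 * X - 1) M := by
  unfold X M; norm_num


/-- Fibonacci-type sequence with initial values `x`, `y`. -/
def G (x y : ℕ) : ℕ → ℕ
  | 0 => x
  | 1 => y
  | n + 2 => G x y (n + 1) + G x y n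

lemma G_rec (x y n : ℕ) : G x y (n + 2) = G x y (n + 1) + G x y n := rfl

section Construction

variable (s t : ℕ)

/-- The sequence: even terms factor algebraically. -/
def A : ℕ → ℕ := G (s * (2 * t - s)) (s ^ 2 + t ^ 2)

lemma A_rec (n : ℕ) : A s t (n + 2) = A s t (n + 1) + A s t n := rfl

lemma u_mono (hst : s ≤ t) (n : ℕ) : s ≤ G s t n ∧ G s t n ≤ G s t (n + 1) := by
  induction n with
  | zero => exact ⟨le_rfl, hst⟩
  | succ n ih => exact ⟨ih.1.trans ih.2, by rw [G_rec]; exact Nat.le_add_right _ _⟩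

lemma factor (hst : s ≤ t) (n : ℕ) :
    A s t (2 * n) = G s t n * (2 * G s t (n + 1) - G s t n) ∧
      A s t (2 * n + 1) = G s t n ^ 2 + G s t (n + 1) ^ 2 := by
  induction n with
  | zero => exact ⟨rfl, rfl⟩
  | succ n ih =>
    obtain ⟨h1, h2⟩ := ih
    have hm := (u_mono s t hst n).2
    have e1 : A s t (2 * (n + 1)) = A s t (2 * n + 1) + A s t (2 * n) := rfl
    have e2 : A s t (2 * (n + 1) + 1) = A s t (2 * (n + 1)) + A s t (2 * n + 1) := rfl
    have e3 : G s t (n + 1 + 1) = G s t (n + 1) + G s t n := rfl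
    obtain ⟨d, hd⟩ := Nat.exists_eq_add_of_le hm
    have e4 : A s t (2 * (n + 1)) =
        G s t (n + 1) * (2 * G s t (n + 1 + 1) - G s t (n + 1)) := by
      rw [e1, h1, h2, e3, hd]
      have : 2 * (G s t n + d) - G s t n = G s t n + 2 * d := by omega
      rw [this]
      have : 2 * (G s t n + d + G s t n) - (G s t n + d) = 3 * G s t n + d := by omega
      rw [this]
      ring
    refine ⟨e4, ?_⟩
    rw [e2, e4, h2, e3, hd]
    have : 2 * (G s t n + d + G s t n) - (G s t n + d) = 3 * G s t n + d := by omega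
    rw [this]
    ring

lemma even_composite (hs : 2 ≤ s) (hst : s ≤ t) (n : ℕ) :
    1 < A s t (2 * n) ∧ ¬ (A s t (2 * n)).Prime := by
  obtain ⟨h1, h2⟩ := u_mono s t hst n
  rw [(factor s t hst n).1]
  have h3 : 2 ≤ G s t n := hs.trans h1
  have h4 : 2 ≤ 2 * G s t (n + 1) - G s t n := by omega
  refine ⟨by nlinarith, Nat.not_prime_mul (by omega) (by omega)⟩

lemma class_dvd (m z r : ℕ) (hz : 1 ≤ z) (hmz : m ∣ Nat.fib z) (hr : m ∣ A s t r) (j : ℕ) :
    m ∣ A s t (r + z * j) := by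
  induction j with
  | zero => simpa using hr
  | succ j ih =>
    have e : r + z * (j + 1) = (r + z * j) + (z - 1) + 1 := by
      rw [Nat.mul_succ]; omega
    rw [e, add_formula (A s t) (A_rec s t)]
    refine dvd_add (dvd_mul_of_dvd_left ih _) (dvd_mul_of_dvd_right ?_ _)
    rwa [Nat.sub_add_cancel hz]

end Construction


lemma odd_composite (s t : ℕ) (hs : M < s) (hst : s ≤ t) (hs1 : s ≡ 1 [MOD M])
    (ht : t ≡ X [MOD M]) (k : ℕ) (hk : k % 2 = 1) :
    1 < A s t k ∧ ¬ (A s t k).Prime := by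
  obtain ⟨⟨z, r, m, x⟩, hc, hkz⟩ := cover' k hk
  have h1 := data_fib _ hc
  have h2 := data_zero _ hc
  have h3 := data_misc _ hc
  simp only at h1 h2 h3 hkz
  obtain ⟨hr1, hrz, hm1, hx1, hmM, hXx⟩ := h3
  have hs' : (s : ZMod m) = 1 := by
    have := (ZMod.natCast_eq_natCast_iff s 1 m).mpr (hs1.of_dvd hmM)
    simpa using this
  have ht' : (t : ZMod m) = x := by
    have a1 := (ZMod.natCast_eq_natCast_iff t X m).mpr (ht.of_dvd hmM)
    have a2 := (ZMod.natCast_eq_natCast_iff X x m).mpr hXx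
    rw [a1, a2]
  have hA0 : ((A s t 0 : ℕ) : ZMod m) = 2 * x - 1 := by
    have : A s t 0 = s * (2 * t - s) := rfl
    rw [this, Nat.cast_mul, Nat.cast_sub (by omega), Nat.cast_mul, hs', ht']
    push_cast; ring
  have hA1 : ((A s t 1 : ℕ) : ZMod m) = 1 + (x : ZMod m) ^ 2 := by
    have : A s t 1 = s ^ 2 + t ^ 2 := rfl
    rw [this, Nat.cast_add, Nat.cast_pow, Nat.cast_pow, hs', ht', one_pow]
  have hAr : m ∣ A s t r := by
    have e : A s t r = A s t 0 * Nat.fib (r - 1) + A s t 1 * Nat.fib r := by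
      have := add_formula (A s t) (A_rec s t) 0 (r - 1)
      rw [show 0 + (r - 1) + 1 = r by omega, show r - 1 + 1 = r by omega] at this
      exact this
    rw [← ZMod.natCast_eq_zero_iff, e, Nat.cast_add, Nat.cast_mul, Nat.cast_mul, hA0, hA1]
    rw [← ZMod.natCast_eq_zero_iff, Nat.cast_add, Nat.cast_mul, Nat.cast_mul,
      Nat.cast_sub (by omega)] at h2
    push_cast at h2
    exact h2
  have hdvd : m ∣ A s t k := by
    have := class_dvd s t m z r (by omega) h1 hAr (k / z)
    rwa [← hkz, Nat.mod_add_div] at this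
  obtain ⟨n, rfl⟩ : ∃ n, k = 2 * n + 1 := ⟨k / 2, by omega⟩
  obtain ⟨h5, h6⟩ := u_mono s t hst n
  have hM0 : 0 < M := by unfold M; norm_num
  have hmle : m ≤ M := Nat.le_of_dvd hM0 hmM
  have hbig : m < A s t (2 * n + 1) := by
    rw [(factor s t hst n).2]
    nlinarith
  refine ⟨by omega, fun hp => ?_⟩
  rcases (Nat.dvd_prime hp).mp hdvd with h | h <;> omega

/-- A prime dividing two terms at distance `2 * d` divides `fib (2 * d)` or all terms. -/
lemma two_terms (s t p : ℕ) (hp : p.Prime) (hst : s ≤ t) (hcop : Nat.Coprime s t) (hp5 : p ≠ 5)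
    (i d : ℕ) (hd : 0 < d) (h1 : p ∣ A s t i) (h2 : p ∣ A s t (i + d)) : p ∣ Nat.fib d := by
  by_contra hF
  have e : A s t (i + d) = A s t i * Nat.fib (d - 1) + A s t (i + 1) * Nat.fib d := by
    have := add_formula (A s t) (A_rec s t) i (d - 1)
    rw [show i + (d - 1) + 1 = i + d by omega, show d - 1 + 1 = d by omega] at this
    exact this
  rw [e] at h2
  have h3 : p ∣ A s t (i + 1) * Nat.fib d :=
    (Nat.dvd_add_right (dvd_mul_of_dvd_left h1 _)).mp h2
  have h4 : p ∣ A s t (i + 1) := (hp.dvd_mul.mp h3).resolve_right hF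
  have h5 : ∀ j, p ∣ A s t j ∧ p ∣ A s t (j + 1) → p ∣ A s t 0 ∧ p ∣ A s t 1 := by
    intro j
    induction j with
    | zero => exact id
    | succ j ih =>
      rintro ⟨a1, a2⟩
      refine ih ⟨?_, a1⟩
      rw [A_rec s t j] at a2
      exact (Nat.dvd_add_right a1).mp a2
  obtain ⟨h6, h7⟩ := h5 i ⟨h1, h4⟩
  have h6' : p ∣ s * (2 * t - s) := h6
  have h7' : p ∣ s ^ 2 + t ^ 2 := h7
  rcases hp.dvd_mul.mp h6' with h | h
  · have h8 : p ∣ t ^ 2 := (Nat.dvd_add_right (dvd_pow h two_ne_zero)).mp h7'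
    exact Nat.not_coprime_of_dvd_of_dvd hp.one_lt h (hp.dvd_of_dvd_pow h8) hcop
  · obtain ⟨q, hq⟩ := h
    have hsq : s + p * q = 2 * t := by omega
    have h9 : p ∣ 5 * t ^ 2 := by
      have : (5 * (t : ℤ) ^ 2) = (s ^ 2 + t ^ 2 : ℤ) + (p * q) * (2 * t + s) := by
        have h10 : (s : ℤ) + p * q = 2 * t := by exact_mod_cast hsq
        have h11 : (p : ℤ) * q = 2 * t - s := by linarith
        rw [h11]; ring
      have h12 : (p : ℤ) ∣ 5 * (t : ℤ) ^ 2 := by
        rw [this]
        exact dvd_add (by exact_mod_cast h7') (Dvd.intro ((q : ℤ) * (2 * t + s)) (by ring))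
      exact_mod_cast h12
    rcases hp.dvd_mul.mp h9 with h | h
    · exact hp5 ((Nat.prime_dvd_prime_iff_eq hp (by norm_num)).mp h)
    · have h13 : p ∣ t := hp.dvd_of_dvd_pow h
      have h14 : p ∣ s ^ 2 := (Nat.dvd_add_left (dvd_pow h13 two_ne_zero)).mp h7'
      exact Nat.not_coprime_of_dvd_of_dvd hp.one_lt (hp.dvd_of_dvd_pow h14) h13 hcop

/-- Primes dividing `M` divide no term `A (2 * n)` with `2520 ∣ n`. -/
lemma good_M (s t p n : ℕ) (hp : p.Prime) (hst : s ≤ t) (hs1 : s ≡ 1 [MOD M])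
    (ht : t ≡ X [MOD M]) (hpM : p ∣ M) (hn : 5040 ∣ n) : ¬ p ∣ A s t n := by
  have hs' : (s : ZMod p) = 1 := by
    have := (ZMod.natCast_eq_natCast_iff s 1 p).mpr (hs1.of_dvd hpM)
    simpa using this
  have ht' : (t : ZMod p) = X := (ZMod.natCast_eq_natCast_iff t X p).mpr (ht.of_dvd hpM)
  have h0 : ¬ p ∣ A s t 0 := by
    intro h
    have hX : 1 ≤ 2 * X := by unfold X; norm_num
    have hA0 : ((A s t 0 : ℕ) : ZMod p) = ((2 * X - 1 : ℕ) : ZMod p) := by
      have : A s t 0 = s * (2 * t - s) := rfl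
      rw [this, Nat.cast_mul, Nat.cast_sub (by omega), Nat.cast_mul, hs', ht', Nat.cast_sub hX]
      push_cast; ring
    rw [← ZMod.natCast_eq_zero_iff, hA0, ZMod.natCast_eq_zero_iff] at h
    exact Nat.not_coprime_of_dvd_of_dvd hp.one_lt h hpM X_coprime
  rcases Nat.eq_zero_or_pos n with rfl | hnpos
  · exact h0
  intro h
  have e : A s t n = A s t 0 * Nat.fib (n - 1) + A s t 1 * Nat.fib n := by
    have := add_formula (A s t) (A_rec s t) 0 (n - 1)
    rw [show 0 + (n - 1) + 1 = n by omega, show n - 1 + 1 = n by omega] at this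
    exact this
  have hF : p ∣ Nat.fib n := (hpM.trans M_dvd).trans (Nat.fib_dvd _ _ hn)
  rw [e] at h
  have h1 : p ∣ A s t 0 * Nat.fib (n - 1) :=
    (Nat.dvd_add_left (dvd_mul_of_dvd_right hF _)).mp h
  rcases hp.dvd_mul.mp h1 with h2 | h2
  · exact h0 h2
  · have := Nat.fib_coprime_fib_succ (n - 1)
    rw [show n - 1 + 1 = n by omega] at this
    exact Nat.not_coprime_of_dvd_of_dvd hp.one_lt h2 hF this

/-- If `s = 1`, `t = 0` modulo `p`, then `A n` behaves like `fib (n - 2)`. -/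
lemma good_W (s t p n : ℕ) (hp : p.Prime) (hst : s ≤ t) (hs1 : s ≡ 1 [MOD p])
    (ht : p ∣ t) (hn : n = 0 ∨ 2 < n ∧ ¬ p ∣ Nat.fib (n - 2)) : ¬ p ∣ A s t n := by
  have hps : ¬ p ∣ s := by
    intro h
    have h1 : 1 ≡ 0 [MOD p] := hs1.symm.trans ((Nat.modEq_zero_iff_dvd).mpr h)
    have h2 : p ∣ 1 := (Nat.modEq_zero_iff_dvd).mp h1
    exact hp.one_lt.ne' (Nat.dvd_one.mp h2)
  rcases hn with rfl | ⟨hn, hF⟩
  · intro h
    have h6' : p ∣ s * (2 * t - s) := h
    rcases hp.dvd_mul.mp h6' with h | h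
    · exact hps h
    · apply hps
      have h1 : p ∣ (2 * t - s) + s := by
        rw [Nat.sub_add_cancel (by omega)]
        exact dvd_mul_of_dvd_right ht 2
      exact (Nat.dvd_add_right h).mp h1
  · intro h
    have e : A s t n = A s t 2 * Nat.fib (n - 3) + A s t 3 * Nat.fib (n - 2) := by
      have := add_formula (A s t) (A_rec s t) 2 (n - 3)
      rw [show 2 + (n - 3) + 1 = n by omega, show n - 3 + 1 = n - 2 by omega] at this
      exact this
    have h0 : A s t 0 = s * (2 * t - s) := rfl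
    have h1 : A s t 1 = s ^ 2 + t ^ 2 := rfl
    have h2 : A s t 2 = A s t 1 + A s t 0 := rfl
    have h3 : A s t 3 = A s t 2 + A s t 1 := rfl
    obtain ⟨d, hd⟩ := Nat.exists_eq_add_of_le hst
    have h2' : A s t 2 = t * (2 * s + t) := by
      rw [h2, h1, h0, hd]
      have : 2 * (s + d) - s = s + 2 * d := by omega
      rw [this]; ring
    have hA2 : p ∣ A s t 2 := by rw [h2']; exact dvd_mul_of_dvd_left ht _
    have hA3 : ¬ p ∣ A s t 3 := by
      intro h'
      rw [h3, h1] at h'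
      have h4 : p ∣ s ^ 2 + t ^ 2 := (Nat.dvd_add_right hA2).mp h'
      have h5 : p ∣ s ^ 2 := (Nat.dvd_add_left (dvd_pow ht two_ne_zero)).mp h4
      exact hps (hp.dvd_of_dvd_pow h5)
    rw [e] at h
    have h6 : p ∣ A s t 3 * Nat.fib (n - 2) :=
      (Nat.dvd_add_right (dvd_mul_of_dvd_left hA2 _)).mp h
    rcases hp.dvd_mul.mp h6 with h7 | h7
    · exact hA3 h7
    · exact hF h7

end Pool.Agent.CVD
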