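import Mathlib
import Pool.Agent.CVD.Stmts
import Pool.Agent.GBQ.RhoLow

set_option autoImplicit false

/-! # CVD [G3]: the Euler product (helper1 for helper99) -/

namespace Pool.Agent.CVD

open Finset

namespace G3x

/-- the multiplicative function -/
noncomputable def ff (ε : ℝ) (L : ℕ) : ℝ :=
  (L.divisors.card : ℝ) ^ 2 * (L : ℝ) ^ (2 * ε) * hh L

theorem hh_nonneg (D : ℕ) : 0 ≤ hh D := by
  unfold hh
  positivity

theorem hh_one : hh 1 = 1 := by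
  simp [hh]

theorem hh_mul {m n : ℕ} (h : m.Coprime n) : hh (m * n) = hh m * hh n := by
  unfold hh
  rw [h.primeFactors_mul, Finset.card_union_of_disjoint h.disjoint_primeFactors,
    Nat.totient_mul h, pow_add, Nat.cast_mul, mul_div_mul_comm]

theorem ff_nonneg (ε : ℝ) (L : ℕ) : 0 ≤ ff ε L := by
  have := hh_nonneg L
  unfold ff
  positivity

theorem ff_one (ε : ℝ) : ff ε 1 = 1 := by
  unfold ff
  rw [hh_one]
  simp

theorem ff_mul (ε : ℝ) {m n : ℕ} (h : m.Coprime n) : ff ε (m * n) = ff ε m * ff ε n := by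
  unfold ff
  rw [hh_mul h, h.card_divisors_mul, Nat.cast_mul, Nat.cast_mul,
    Real.mul_rpow (Nat.cast_nonneg _) (Nat.cast_nonneg _)]
  ring

theorem hh_pow {p k : ℕ} (hp : p.Prime) (hk : 1 ≤ k) : hh (p ^ k) ≤ 4 / (p : ℝ) ^ k := by
  have hp2 : (2 : ℝ) ≤ p := by exact_mod_cast hp.two_le
  have hp0 : (0 : ℝ) < p := by linarith
  obtain ⟨j, rfl⟩ : ∃ j, k = j + 1 := ⟨k - 1, by omega⟩
  unfold hh
  rw [Nat.primeFactors_prime_pow (by omega) hp, Finset.card_singleton,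
    Nat.totient_prime_pow hp (by omega), Nat.add_sub_cancel, Nat.cast_mul, Nat.cast_pow,
    Nat.cast_sub hp.one_le, Nat.cast_one, pow_one, pow_succ]
  have h1 : (0 : ℝ) < (p : ℝ) ^ j := by positivity
  rw [div_le_div_iff₀ (by nlinarith) (by positivity)]
  nlinarith

theorem ff_pow (ε : ℝ) {p k : ℕ} (hp : p.Prime) (hk : 1 ≤ k) :
    ff ε (p ^ k) ≤ 4 * (((k : ℝ) + 1) ^ 2 * ((p : ℝ) ^ (2 * ε) / p) ^ k) := by
  have hp0 : (0 : ℝ) < p := by exact_mod_cast hp.pos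
  unfold ff
  have h1 : ((p ^ k : ℕ) : ℝ) ^ (2 * ε) = ((p : ℝ) ^ (2 * ε)) ^ k := by
    rw [Nat.cast_pow, ← Real.rpow_natCast, ← Real.rpow_mul hp0.le, mul_comm, Real.rpow_mul hp0.le,
      Real.rpow_natCast]
  rw [Nat.divisors_prime_pow hp, Finset.card_map, Finset.card_range, h1, Nat.cast_add,
    Nat.cast_one, div_pow]
  have h2 := hh_pow hp hk
  have h3 : (0 : ℝ) ≤ ((k : ℝ) + 1) ^ 2 * ((p : ℝ) ^ (2 * ε)) ^ k := by positivity
  calc ((k : ℝ) + 1) ^ 2 * ((p : ℝ) ^ (2 * ε)) ^ k * hh (p ^ k)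
      ≤ ((k : ℝ) + 1) ^ 2 * ((p : ℝ) ^ (2 * ε)) ^ k * (4 / (p : ℝ) ^ k) :=
        mul_le_mul_of_nonneg_left h2 h3
    _ = _ := by ring

theorem gsum (v : ℕ) : ∑ k ∈ Icc 1 v, ((k : ℝ) + 1) ^ 2 * (3 / 5 : ℝ) ^ (k - 1) =
    40 - (5 / 2 * (v : ℝ) ^ 2 + 35 / 2 * v + 40) * (3 / 5 : ℝ) ^ v := by
  induction v with
  | zero => simp
  | succ v ih =>
    rw [Finset.sum_Icc_succ_top (by omega), ih, Nat.add_sub_cancel, pow_succ]
    push_cast
    ring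

theorem rsum {r : ℝ} (h0 : 0 ≤ r) (h1 : r ≤ 3 / 5) (v : ℕ) :
    ∑ k ∈ Icc 1 v, ((k : ℝ) + 1) ^ 2 * r ^ k ≤ 40 * r := by
  calc ∑ k ∈ Icc 1 v, ((k : ℝ) + 1) ^ 2 * r ^ k
      ≤ ∑ k ∈ Icc 1 v, r * (((k : ℝ) + 1) ^ 2 * (3 / 5 : ℝ) ^ (k - 1)) := by
        refine Finset.sum_le_sum fun k hk => ?_
        obtain ⟨j, rfl⟩ : ∃ j, k = j + 1 := ⟨k - 1, by have := (mem_Icc.1 hk).1; omega⟩
        rw [Nat.add_sub_cancel]
        have h2 : r ^ j ≤ (3 / 5 : ℝ) ^ j := pow_le_pow_left₀ h0 h1 j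
        have h3 : (0 : ℝ) ≤ r * (((j + 1 : ℕ) : ℝ) + 1) ^ 2 := by positivity
        calc (((j + 1 : ℕ) : ℝ) + 1) ^ 2 * r ^ (j + 1)
            = r * (((j + 1 : ℕ) : ℝ) + 1) ^ 2 * r ^ j := by ring
          _ ≤ r * (((j + 1 : ℕ) : ℝ) + 1) ^ 2 * (3 / 5 : ℝ) ^ j :=
            mul_le_mul_of_nonneg_left h2 h3
          _ = _ := by ring
    _ = r * ∑ k ∈ Icc 1 v, ((k : ℝ) + 1) ^ 2 * (3 / 5 : ℝ) ^ (k - 1) := by
        rw [Finset.mul_sum]
    _ ≤ r * 40 := by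
        refine mul_le_mul_of_nonneg_left ?_ h0
        rw [gsum]
        have : (0 : ℝ) ≤ (5 / 2 * (v : ℝ) ^ 2 + 35 / 2 * v + 40) * (3 / 5 : ℝ) ^ v := by positivity
        linarith
    _ = 40 * r := mul_comm _ _

theorem r_le {ε : ℝ} (hε : 2 * ε ≤ 1 / 4) {p : ℕ} (hp : p.Prime) :
    (p : ℝ) ^ (2 * ε) / p ≤ 3 / 5 := by
  have hp2 : (2 : ℝ) ≤ p := by exact_mod_cast hp.two_le
  have hp0 : (0 : ℝ) < p := by linarith
  have h1 : (p : ℝ) ^ (2 * ε) ≤ (p : ℝ) ^ (1 / 4 : ℝ) :=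
    Real.rpow_le_rpow_of_exponent_le (by linarith) hε
  have h2 : ((p : ℝ) ^ (1 / 4 : ℝ)) ^ 4 = p := by
    rw [← Real.rpow_natCast, ← Real.rpow_mul hp0.le]
    norm_num
  rw [div_le_iff₀ hp0]
  refine h1.trans ?_
  have h3 : (0 : ℝ) < (p : ℝ) ^ (1 / 4 : ℝ) := Real.rpow_pos_of_pos hp0 _
  generalize (p : ℝ) ^ (1 / 4 : ℝ) = q at h2 h3
  rw [← h2] at hp2 ⊢
  have h4 : (5 / 3 : ℝ) ≤ q ^ 3 := by
    by_contra hcon
    push Not at hcon
    have h5 : (q ^ 3) ^ 4 < (5 / 3 : ℝ) ^ 4 := pow_lt_pow_left₀ hcon (by positivity) (by norm_num)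
    have h6 : (2 : ℝ) ^ 3 ≤ (q ^ 4) ^ 3 := pow_le_pow_left₀ (by norm_num) hp2 3
    have h7 : (q ^ 3) ^ 4 = (q ^ 4) ^ 3 := by ring
    rw [h7] at h5
    norm_num at h5 h6
    linarith
  nlinarith

/-- the sum of the reciprocals of the primes of `Q` -/
theorem recip {l Q : ℕ} (hl : 3 ≤ l) (hQ : ∀ p : ℕ, p.Prime → p ∣ Q → p < l) :
    ∑ p ∈ Q.primeFactors, 1 / (p : ℝ) ≤ Real.log (Real.log l) + 8 := by
  have h1 := Pool.Agent.GBQ.rhl_recip l hl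
  have h2 : Q.primeFactors ⊆ insert 2 ((Ioc 2 l).filter Nat.Prime) := by
    intro p hp
    have hpp := Nat.prime_of_mem_primeFactors hp
    have h3 := hQ p hpp (Nat.dvd_of_mem_primeFactors hp)
    rw [mem_insert, mem_filter, mem_Ioc]
    have := hpp.two_le
    rcases Nat.lt_or_ge 2 p with h | h
    · exact Or.inr ⟨⟨h, h3.le⟩, hpp⟩
    · exact Or.inl (by omega)
  calc ∑ p ∈ Q.primeFactors, 1 / (p : ℝ)
      ≤ ∑ p ∈ insert 2 ((Ioc 2 l).filter Nat.Prime), 1 / (p : ℝ) :=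
        Finset.sum_le_sum_of_subset_of_nonneg h2 fun _ _ _ => by positivity
    _ = 1 / ((2 : ℕ) : ℝ) + ∑ p ∈ (Ioc 2 l).filter Nat.Prime, 1 / (p : ℝ) :=
        Finset.sum_insert (by simp)
    _ ≤ _ := by
        rw [Finset.sum_filter]
        push_cast
        linarith

end G3x

open G3x in
/-- **G3** -/
theorem thm_G3 (h0 : St_Eul) : St_G3 := by
  intro c hc
  have hE : 0 < Real.exp (2 * c) := Real.exp_pos _
  obtain ⟨C₁, hC₁⟩ : ∃ C₁ : ℝ, C₁ = 160 * Real.exp (2 * c) := ⟨_, rfl⟩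
  have hC₁0 : 0 < C₁ := by rw [hC₁]; positivity
  refine ⟨Real.exp (8 * C₁) * (4 * C₁) ^ C₁, max 3 ⌈Real.exp (8 * c)⌉₊, by positivity, ?_⟩
  intro l Q hl hQ1 hQ
  have hl3 : 3 ≤ l := (le_max_left _ _).trans hl
  have hl3' : (3 : ℝ) ≤ l := by exact_mod_cast hl3
  have hl0 : (0 : ℝ) < l := by linarith
  have hlog : 1 < Real.log l := by
    rw [Real.lt_log_iff_exp_lt hl0]
    have := Real.exp_one_lt_d9
    linarith
  have hle : Real.exp (8 * c) ≤ l := by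
    have h1 : ⌈Real.exp (8 * c)⌉₊ ≤ l := (le_max_right _ _).trans hl
    exact Nat.ceil_le.1 h1
  have hlc : 8 * c ≤ Real.log l := by
    rw [Real.le_log_iff_exp_le hl0]
    exact hle
  obtain ⟨ε, hε⟩ : ∃ ε : ℝ, ε = c / Real.log l := ⟨_, rfl⟩
  have hε4 : 2 * ε ≤ 1 / 4 := by
    rw [hε]
    have h1 : c / Real.log l ≤ 1 / 8 := by
      rw [div_le_div_iff₀ (by linarith) (by norm_num)]
      linarith
    linarith
  have hε0 : 0 ≤ ε := by rw [hε]; positivity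
  have hlE : (l : ℝ) ^ (2 * ε) = Real.exp (2 * c) := by
    rw [Real.rpow_def_of_pos hl0, hε]
    congr 1
    field_simp
  have hb : ∀ p ∈ Q.primeFactors, ∑ k ∈ Icc 1 (Q.factorization p), ff ε (p ^ k) ≤
      C₁ * (1 / (p : ℝ)) := by
    intro p hp
    have hpp := Nat.prime_of_mem_primeFactors hp
    have hpl := hQ p hpp (Nat.dvd_of_mem_primeFactors hp)
    have hp0 : (0 : ℝ) < p := by exact_mod_cast hpp.pos
    have hr0 : 0 ≤ (p : ℝ) ^ (2 * ε) / p := by positivity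
    have hr1 : (p : ℝ) ^ (2 * ε) / p ≤ Real.exp (2 * c) / p := by
      rw [← hlE]
      refine div_le_div_of_nonneg_right ?_ hp0.le
      exact Real.rpow_le_rpow hp0.le (by exact_mod_cast hpl.le) (by linarith)
    calc ∑ k ∈ Icc 1 (Q.factorization p), ff ε (p ^ k)
        ≤ ∑ k ∈ Icc 1 (Q.factorization p),
            4 * (((k : ℝ) + 1) ^ 2 * ((p : ℝ) ^ (2 * ε) / p) ^ k) :=
          Finset.sum_le_sum fun k hk => ff_pow ε hpp (mem_Icc.1 hk).1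
      _ = 4 * ∑ k ∈ Icc 1 (Q.factorization p),
            (((k : ℝ) + 1) ^ 2 * ((p : ℝ) ^ (2 * ε) / p) ^ k) := by rw [Finset.mul_sum]
      _ ≤ 4 * (40 * ((p : ℝ) ^ (2 * ε) / p)) :=
          mul_le_mul_of_nonneg_left (rsum hr0 (r_le hε4 hpp) _) (by norm_num)
      _ ≤ 4 * (40 * (Real.exp (2 * c) / p)) := by linarith
      _ = C₁ * (1 / (p : ℝ)) := by rw [hC₁]; ring
  have h1 := h0 (ff ε) (fun p => C₁ * (1 / (p : ℝ))) (ff_nonneg ε) (ff_one ε)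
    (fun m n h => ff_mul ε h) Q hQ1 hb
  have h2 : ∏ p ∈ Q.primeFactors, (1 + C₁ * (1 / (p : ℝ))) ≤
      Real.exp (C₁ * (Real.log (Real.log l) + 8)) := by
    calc ∏ p ∈ Q.primeFactors, (1 + C₁ * (1 / (p : ℝ)))
        ≤ ∏ p ∈ Q.primeFactors, Real.exp (C₁ * (1 / (p : ℝ))) := by
          refine Finset.prod_le_prod (fun p _ => by positivity) fun p _ => ?_
          have := Real.add_one_le_exp (C₁ * (1 / (p : ℝ)))
          linarith
      _ = Real.exp (C₁ * ∑ p ∈ Q.primeFactors, 1 / (p : ℝ)) := by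
          rw [← Real.exp_sum, Finset.mul_sum]
      _ ≤ _ := Real.exp_le_exp.2 (mul_le_mul_of_nonneg_left (recip hl3 hQ) hC₁0.le)
  have h3 : Real.exp (C₁ * (Real.log (Real.log l) + 8)) ≤
      Real.exp (8 * C₁) * (4 * C₁) ^ C₁ * (l : ℝ) ^ (1 / 4 : ℝ) := by
    have h4 : Real.exp (C₁ * (Real.log (Real.log l) + 8)) =
        Real.exp (8 * C₁) * (Real.log l) ^ C₁ := by
      rw [Real.rpow_def_of_pos (by linarith), ← Real.exp_add]
      congr 1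
      ring
    rw [h4, mul_assoc]
    refine mul_le_mul_of_nonneg_left ?_ (Real.exp_pos _).le
    have hδ : (0 : ℝ) < 1 / (4 * C₁) := by positivity
    have h5 := Real.log_le_rpow_div hl0.le hδ
    calc (Real.log l) ^ C₁ ≤ ((l : ℝ) ^ (1 / (4 * C₁)) / (1 / (4 * C₁))) ^ C₁ :=
          Real.rpow_le_rpow (by linarith) h5 hC₁0.le
      _ = ((4 * C₁) * (l : ℝ) ^ (1 / (4 * C₁))) ^ C₁ := by
          congr 1
          field_simp
      _ = (4 * C₁) ^ C₁ * ((l : ℝ) ^ (1 / (4 * C₁))) ^ C₁ :=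
          Real.mul_rpow (by positivity) (by positivity)
      _ = (4 * C₁) ^ C₁ * (l : ℝ) ^ (1 / 4 : ℝ) := by
          rw [← Real.rpow_mul hl0.le]
          congr 2
          field_simp
  have h4 : ∑ L ∈ Q.divisors, (L.divisors.card : ℝ) ^ 2 * (L : ℝ) ^ (2 * (c / Real.log l)) * hh L =
      ∑ L ∈ Q.divisors, ff ε L := by
    rw [hε]
    rfl
  rw [h4]
  exact (h1.trans h2).trans h3

end Pool.Agent.CVD
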