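import Mathlib
import Pool.Agent.CVD.Stmts

set_option autoImplicit false

/-!
# Module Mom: the second moment for a union of residue classes
-/

namespace Pool.Agent.CVD

open Finset

namespace MomAux

/-- one class modulo `l ^ a` contains at most `l ^ (e - a)` of the `x + Q k`, `k < l ^ e` -/
lemma cnt (l Q e a x r : ℕ) (hl : 0 < l) (hQ : Q.Coprime l) (ha : a ≤ e) :
    ((range (l ^ e)).filter (fun k => (x + Q * k) % l ^ a = r)).card ≤ l ^ (e - a) := by
  have hinj : Set.InjOn (fun k => k / l ^ a)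
      (((range (l ^ e)).filter (fun k => (x + Q * k) % l ^ a = r) : Finset ℕ) : Set ℕ) := by
    intro k hk k' hk' h
    simp only [coe_filter, mem_range, Set.mem_ofPred_eq] at hk hk'
    have h1 : x + Q * k ≡ x + Q * k' [MOD l ^ a] := by
      unfold Nat.ModEq; rw [hk.2, hk'.2]
    have h2 : Q * k ≡ Q * k' [MOD l ^ a] := Nat.ModEq.add_left_cancel' x h1
    have h3 : k ≡ k' [MOD l ^ a] :=
      Nat.ModEq.cancel_left_of_coprime ((Nat.Coprime.pow_right a hQ).symm) h2
    have h' : k / l ^ a = k' / l ^ a := h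
    unfold Nat.ModEq at h3
    rw [← Nat.div_add_mod k (l ^ a), ← Nat.div_add_mod k' (l ^ a), h', h3]
  have hmap : ∀ k ∈ (range (l ^ e)).filter (fun k => (x + Q * k) % l ^ a = r),
      k / l ^ a ∈ range (l ^ (e - a)) := by
    intro k hk
    rw [mem_filter, mem_range] at hk
    rw [mem_range, Nat.div_lt_iff_lt_mul (pow_pos hl a), ← pow_add, Nat.sub_add_cancel ha]
    exact hk.1
  have h := card_le_card_of_injOn _ hmap hinj
  rwa [card_range] at h

lemma hh_nonneg (D : ℕ) : 0 ≤ hh D := by unfold hh; positivity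

end MomAux

open MomAux

theorem thm_Mom : St_Mom := by
  classical
  intro R ρ t l Q e w J d c hl hQ hQl he hw hd
  have hl0 : 0 < l := hl.pos
  have hl1 : (1 : ℝ) < l := by exact_mod_cast hl.one_lt
  have hlR : (0 : ℝ) < l := by exact_mod_cast hl0
  have hl1' : (0 : ℝ) < (l : ℝ) - 1 := by linarith
  set q : ℕ → ℕ := fun i => co l (d i) with hq
  set a : ℕ → ℕ := fun i => (d i).factorization l with ha
  -- arithmetic of the moduli
  have hdi0 : ∀ i ∈ J, d i ≠ 0 := by
    intro i hi h0
    have h := (hd i hi).1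
    rw [h0, zero_dvd_iff] at h
    rcases Nat.mul_eq_zero.1 h with h | h
    · omega
    · exact absurd h (pow_pos hl0 e).ne'
  have hdec : ∀ i ∈ J, l ^ a i * q i = d i := by
    intro i _
    exact Nat.ordProj_mul_ordCompl_eq_self (d i) l
  have hqc : ∀ i ∈ J, l.Coprime (q i) := by
    intro i hi
    exact Nat.coprime_ordCompl hl (hdi0 i hi)
  have hqQ : ∀ i ∈ J, q i ∣ Q := by
    intro i hi
    have h1 : q i ∣ Q * l ^ e := (Dvd.intro_left _ (hdec i hi)).trans (hd i hi).1
    exact Nat.Coprime.dvd_of_dvd_mul_right (Nat.Coprime.pow_right e (hqc i hi).symm) h1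
  have ha1 : ∀ i ∈ J, 1 ≤ a i := by
    intro i hi
    by_contra h
    have h0 : a i = 0 := by omega
    have h1 := hdec i hi
    rw [h0, pow_zero, one_mul] at h1
    exact (hd i hi).2 (h1 ▸ hqQ i hi)
  have hae : ∀ i ∈ J, a i ≤ e := by
    intro i hi
    have h1 : l ^ a i ∣ Q * l ^ e := (Dvd.intro _ (hdec i hi)).trans (hd i hi).1
    have h2 : l ^ a i ∣ l ^ e :=
      Nat.Coprime.dvd_of_dvd_mul_left (Nat.Coprime.pow_left _ hQl.symm) h1
    exact (Nat.pow_dvd_pow_iff_le_right hl.one_lt).1 h2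
  have htot : ∀ i ∈ J, ((pe l (d i)).totient : ℝ) = (l : ℝ) ^ (a i - 1) * ((l : ℝ) - 1) := by
    intro i hi
    have h : (pe l (d i)).totient = l ^ (a i - 1) * (l - 1) :=
      Nat.totient_prime_pow hl (ha1 i hi)
    rw [h]
    push_cast [Nat.cast_sub hl.one_lt.le]
    ring
  have htpos : ∀ i ∈ J, (0 : ℝ) < ((pe l (d i)).totient : ℝ) := by
    intro i hi
    rw [htot i hi]; positivity
  -- the pointwise bound
  set I : ℕ → ℕ → ℝ := fun i x => if x % q i = c i % q i then 1 else 0 with hI
  have hI0 : ∀ i x, 0 ≤ I i x := by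
    intro i x; simp only [hI]; split_ifs <;> norm_num
  have hden : (0 : ℝ) < (l : ℝ) ^ (e - 1) * ((l : ℝ) - 1) := by positivity
  have hone : ∀ x, ∀ i ∈ J,
      ((((range (l ^ e)).filter (fun k => (x + Q * k) % d i = c i)).card : ℝ) /
        ((l : ℝ) ^ (e - 1) * ((l : ℝ) - 1))) ≤ I i x / ((pe l (d i)).totient : ℝ) := by
    intro x i hi
    by_cases hx : x % q i = c i % q i
    · have hsub : (range (l ^ e)).filter (fun k => (x + Q * k) % d i = c i) ⊆
          (range (l ^ e)).filter (fun k => (x + Q * k) % l ^ a i = c i % l ^ a i) := by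
        intro k hk
        rw [mem_filter] at hk ⊢
        refine ⟨hk.1, ?_⟩
        rw [← hk.2, Nat.mod_mod_of_dvd _ (Dvd.intro _ (hdec i hi))]
      have hc := (card_le_card hsub).trans (cnt l Q e (a i) x (c i % l ^ a i) hl0 hQl (hae i hi))
      have hc' : ((((range (l ^ e)).filter (fun k => (x + Q * k) % d i = c i)).card : ℕ) : ℝ) ≤
          (l : ℝ) ^ (e - a i) := by exact_mod_cast hc
      have hIx : I i x = 1 := by simp only [hI]; rw [if_pos hx]
      rw [hIx, htot i hi, div_le_div_iff₀ hden (by positivity)]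
      have h1 : (l : ℝ) ^ (e - a i) * (l : ℝ) ^ (a i - 1) = (l : ℝ) ^ (e - 1) := by
        rw [← pow_add]; congr 1
        have := ha1 i hi
        have := hae i hi
        omega
      calc _ ≤ (l : ℝ) ^ (e - a i) * ((l : ℝ) ^ (a i - 1) * ((l : ℝ) - 1)) := by gcongr
        _ = 1 * ((l : ℝ) ^ (e - 1) * ((l : ℝ) - 1)) := by rw [← mul_assoc, h1, one_mul]
    · have hemp : (range (l ^ e)).filter (fun k => (x + Q * k) % d i = c i) = ∅ := by
        rw [filter_eq_empty_iff]
        intro k _ hk
        apply hx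
        have h1 : (x + Q * k) % q i = c i % q i := by
          rw [← hk, Nat.mod_mod_of_dvd _ (Dvd.intro_left _ (hdec i hi))]
        rw [← h1, Nat.add_mod, Nat.mod_eq_zero_of_dvd ((hqQ i hi).mul_right k), add_zero,
          Nat.mod_mod]
      have hIx : I i x = 0 := by simp only [hI]; rw [if_neg hx]
      rw [hemp, hIx]
      simp
  have hpt : ∀ x, (((range (l ^ e)).filter (fun k => ∃ i ∈ J, (x + Q * k) % d i = c i)).card : ℝ) /
      ((l : ℝ) ^ (e - 1) * ((l : ℝ) - 1)) ≤ ∑ i ∈ J, I i x / ((pe l (d i)).totient : ℝ) := by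
    intro x
    have hsub : (range (l ^ e)).filter (fun k => ∃ i ∈ J, (x + Q * k) % d i = c i) ⊆
        J.biUnion (fun i => (range (l ^ e)).filter (fun k => (x + Q * k) % d i = c i)) := by
      intro k hk
      rw [mem_filter] at hk
      obtain ⟨hk1, i, hi, hk2⟩ := hk
      rw [mem_biUnion]
      exact ⟨i, hi, mem_filter.2 ⟨hk1, hk2⟩⟩
    have h1 := (card_le_card hsub).trans card_biUnion_le
    have h2 : ((((range (l ^ e)).filter (fun k => ∃ i ∈ J, (x + Q * k) % d i = c i)).card : ℕ) : ℝ)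
        ≤ ∑ i ∈ J, (((range (l ^ e)).filter (fun k => (x + Q * k) % d i = c i)).card : ℝ) := by
      exact_mod_cast h1
    calc _ ≤ (∑ i ∈ J, (((range (l ^ e)).filter (fun k => (x + Q * k) % d i = c i)).card : ℝ)) /
          ((l : ℝ) ^ (e - 1) * ((l : ℝ) - 1)) := by gcongr
      _ = ∑ i ∈ J, (((range (l ^ e)).filter (fun k => (x + Q * k) % d i = c i)).card : ℝ) /
          ((l : ℝ) ^ (e - 1) * ((l : ℝ) - 1)) := by rw [sum_div]
      _ ≤ _ := sum_le_sum (fun i hi => hone x i hi)
  -- the mass of two classes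
  have hmass : ∀ i ∈ J, ∀ i' ∈ J, ∑ x ∈ range Q, w x * (I i x * I i' x) ≤
      hh (Nat.lcm (q i) (q i')) := by
    intro i hi i' hi'
    by_cases hex : ∃ x₀, x₀ % q i = c i % q i ∧ x₀ % q i' = c i' % q i'
    · obtain ⟨x₀, h1, h2⟩ := hex
      have hb := hw.bound (Nat.lcm (q i) (q i')) x₀ (Nat.lcm_dvd (hqQ i hi) (hqQ i' hi'))
      refine le_trans ?_ hb
      unfold cls
      rw [sum_filter]
      refine sum_le_sum fun x _ => ?_
      by_cases hx : x % q i = c i % q i ∧ x % q i' = c i' % q i'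
      · have e1 : x₀ ≡ x [MOD q i] := by unfold Nat.ModEq; rw [h1, hx.1]
        have e2 : x₀ ≡ x [MOD q i'] := by unfold Nat.ModEq; rw [h2, hx.2]
        have e3 : x % Nat.lcm (q i) (q i') = x₀ % Nat.lcm (q i) (q i') := by
          have : x₀ ≡ x [MOD Nat.lcm (q i) (q i')] := by
            rw [Nat.modEq_iff_dvd] at e1 e2 ⊢
            exact Int.natCast_dvd.2 (Nat.lcm_dvd (Int.natCast_dvd.1 e1) (Int.natCast_dvd.1 e2))
          exact this.symm
        rw [if_pos e3]
        simp only [hI]
        rw [if_pos hx.1, if_pos hx.2]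
        simp
      · have h0 : I i x * I i' x = 0 := by
          simp only [hI]
          rcases not_and_or.1 hx with hx | hx
          · rw [if_neg hx, zero_mul]
          · rw [if_neg hx, mul_zero]
        rw [h0, mul_zero]
        split_ifs
        · exact hw.nonneg x
        · exact le_rfl
    · refine le_trans (le_of_eq ?_) (hh_nonneg _)
      refine sum_eq_zero fun x _ => ?_
      have h0 : I i x * I i' x = 0 := by
        simp only [hI]
        by_cases hx : x % q i = c i % q i
        · rw [if_neg (fun h => hex ⟨x, hx, h⟩), mul_zero]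
        · rw [if_neg hx, zero_mul]
      rw [h0, mul_zero]
  -- expand the square
  calc ∑ x ∈ range Q, w x * ((((range (l ^ e)).filter
        (fun k => ∃ i ∈ J, (x + Q * k) % d i = c i)).card : ℝ) /
        ((l : ℝ) ^ (e - 1) * ((l : ℝ) - 1))) ^ 2
      ≤ ∑ x ∈ range Q, w x * (∑ i ∈ J, I i x / ((pe l (d i)).totient : ℝ)) ^ 2 := by
        refine sum_le_sum fun x _ => mul_le_mul_of_nonneg_left ?_ (hw.nonneg x)
        exact pow_le_pow_left₀ (by positivity) (hpt x) 2
    _ = ∑ x ∈ range Q, ∑ i ∈ J, ∑ i' ∈ J, (w x * (I i x * I i' x)) /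
        (((pe l (d i)).totient : ℝ) * ((pe l (d i')).totient : ℝ)) := by
        refine sum_congr rfl fun x _ => ?_
        rw [sq, sum_mul_sum, mul_sum]
        refine sum_congr rfl fun i _ => ?_
        rw [mul_sum]
        refine sum_congr rfl fun i' _ => ?_
        rw [div_mul_div_comm, ← mul_div_assoc]
    _ = ∑ i ∈ J, ∑ i' ∈ J, (∑ x ∈ range Q, w x * (I i x * I i' x)) /
        (((pe l (d i)).totient : ℝ) * ((pe l (d i')).totient : ℝ)) := by
        rw [sum_comm]
        refine sum_congr rfl fun i _ => ?_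
        rw [sum_comm]
        refine sum_congr rfl fun i' _ => ?_
        rw [sum_div]
    _ ≤ ∑ i ∈ J, ∑ i' ∈ J, gg l (d i) (d i') := by
        refine sum_le_sum fun i hi => sum_le_sum fun i' hi' => ?_
        unfold gg
        have h1 := htpos i hi
        have h2 := htpos i' hi'
        exact div_le_div_of_nonneg_right (hmass i hi i' hi') (by positivity)

end Pool.Agent.CVD
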