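import Mathlib
import Pool.Agent.CVD.Stmts
import Pool.Agent.CVD.Fam

set_option autoImplicit false

/-!
# CVD / Rank: rank of apparition, the family for a given modulus
-/

namespace Pool.Agent.CVD

open Finset

theorem exists_fib_dvd (p : ℕ) (hp : p.Prime) : ∃ z, 0 < z ∧ p ∣ Nat.fib z := by
  have : Fact p.Prime := ⟨hp⟩
  let f : ℕ → ZMod p × ZMod p := fun k => ((Nat.fib k : ZMod p), (Nat.fib (k + 1) : ZMod p))
  obtain ⟨i, j, hne, hij⟩ := Finite.exists_ne_map_eq_of_infinite f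
  have key : ∀ i j : ℕ, i < j → f i = f j → ∃ z, 0 < z ∧ p ∣ Nat.fib z := by
    intro i
    induction i with
    | zero =>
      intro j hj h
      refine ⟨j, hj, ?_⟩
      have h1 : (Nat.fib 0 : ZMod p) = (Nat.fib j : ZMod p) := (Prod.ext_iff.mp h).1
      rw [← ZMod.natCast_eq_zero_iff, ← h1]
      simp
    | succ i ih =>
      intro j hj h
      obtain ⟨j', rfl⟩ : ∃ j', j = j' + 1 := ⟨j - 1, by omega⟩
      apply ih j' (by omega)
      have h1 : (Nat.fib (i + 1) : ZMod p) = (Nat.fib (j' + 1) : ZMod p) := (Prod.ext_iff.mp h).1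
      have h2 : (Nat.fib (i + 1 + 1) : ZMod p) = (Nat.fib (j' + 1 + 1) : ZMod p) :=
        (Prod.ext_iff.mp h).2
      refine Prod.ext ?_ h1
      show (Nat.fib i : ZMod p) = (Nat.fib j' : ZMod p)
      have e1 : Nat.fib (i + 1 + 1) = Nat.fib i + Nat.fib (i + 1) := Nat.fib_add_two
      have e2 : Nat.fib (j' + 1 + 1) = Nat.fib j' + Nat.fib (j' + 1) := Nat.fib_add_two
      rw [e1, e2, Nat.cast_add, Nat.cast_add, h1] at h2
      exact add_right_cancel h2
  rcases lt_or_gt_of_ne hne with h | h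
  · exact key i j h hij
  · exact key j i h hij.symm

theorem rank_spec (p : ℕ) (hp : p.Prime) : 0 < rank p ∧ p ∣ Nat.fib (rank p) :=
  Nat.sInf_mem (exists_fib_dvd p hp)

theorem rank_dvd (p : ℕ) (hp : p.Prime) (k : ℕ) (h : p ∣ Nat.fib k) : rank p ∣ k := by
  obtain ⟨h1, h2⟩ := rank_spec p hp
  have h3 : p ∣ Nat.fib (Nat.gcd k (rank p)) := by
    rw [Nat.fib_gcd]
    exact Nat.dvd_gcd h h2
  have h4 : 0 < Nat.gcd k (rank p) := Nat.gcd_pos_of_pos_right _ h1
  have h5 : rank p ≤ Nat.gcd k (rank p) := Nat.sInf_le ⟨h4, h3⟩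
  have h6 : Nat.gcd k (rank p) = rank p := le_antisymm (Nat.le_of_dvd h1 (Nat.gcd_dvd_right _ _)) h5
  rw [← h6]
  exact Nat.gcd_dvd_left _ _

theorem dvd_fib_of_rank (p : ℕ) (hp : p.Prime) (k : ℕ) (h : rank p ∣ k) : p ∣ Nat.fib k :=
  (rank_spec p hp).2.trans (Nat.fib_dvd _ _ h)

/-- reduced modulus -/
theorem div_gcd_dvd (z h m : ℕ) (hz : 0 < z) (hd : z ∣ h * m) : z / Nat.gcd z h ∣ m := by
  have hg : 0 < Nat.gcd z h := Nat.gcd_pos_of_pos_left _ hz
  have hc : Nat.Coprime (z / Nat.gcd z h) (h / Nat.gcd z h) := Nat.coprime_div_gcd_div_gcd hg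
  apply hc.dvd_of_dvd_mul_left
  obtain ⟨z', hz'⟩ := Nat.gcd_dvd_left z h
  obtain ⟨h', hh'⟩ := Nat.gcd_dvd_right z h
  have e1 : z / Nat.gcd z h = z' := Nat.div_eq_of_eq_mul_right hg hz'
  have e2 : h / Nat.gcd z h = h' := Nat.div_eq_of_eq_mul_right hg hh'
  rw [e1, e2]
  have h3 : Nat.gcd z h * z' ∣ Nat.gcd z h * (h' * m) := by
    rw [← hz', ← mul_assoc, ← hh']
    exact hd
  exact Nat.dvd_of_mul_dvd_mul_left hg h3

/-- the family: all terms composite, the primes of `fib (Z!)` not dividing `M` are structured -/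
theorem family (Z : ℕ) : ∃ s t : ℕ, M < s ∧ s ≤ t ∧ Nat.Coprime s t ∧ s ≡ 1 [MOD M] ∧
    t ≡ X [MOD M] ∧ ∀ p : ℕ, p.Prime → ¬ p ∣ M → p ∣ Nat.fib Z.factorial →
      s ≡ 1 [MOD p] ∧ p ∣ t := by
  classical
  set D : ℕ := Nat.fib Z.factorial with hD
  have hDpos : 0 < D := Nat.fib_pos.mpr (Nat.factorial_pos Z)
  set S : Finset ℕ := D.primeFactors.filter (fun p => ¬ p ∣ M) with hS
  set W : ℕ := ∏ p ∈ S, p with hW
  have hSp : ∀ p ∈ S, p.Prime := fun p hp =>
    Nat.prime_of_mem_primeFactors (Finset.mem_filter.mp hp).1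
  have hWpos : 0 < W := Finset.prod_pos fun p hp => (hSp p hp).pos
  have hcopWM : Nat.Coprime M W := by
    rw [hW]
    refine Nat.Coprime.prod_right fun p hp => ?_
    exact ((Nat.Prime.coprime_iff_not_dvd (hSp p hp)).mpr (Finset.mem_filter.mp hp).2).symm
  have hM0 : 1 < M := by unfold M; norm_num
  set s : ℕ := 1 + M * W with hs
  have hMs : M < s := by nlinarith
  have hcops : Nat.Coprime (M * W) s := by
    rw [hs]; simp
  obtain ⟨t1, ht1M, ht1W⟩ := Nat.chineseRemainder hcopWM X 0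
  obtain ⟨t2, ht2, ht2s⟩ := Nat.chineseRemainder hcops t1 1
  set t : ℕ := t2 + (M * W) * s with ht
  have htMW : t ≡ t1 [MOD (M * W)] := by
    have : t ≡ t2 [MOD (M * W)] := by
      rw [ht, Nat.ModEq, Nat.add_mul_mod_self_left]
    exact this.trans ht2
  have htM : t ≡ X [MOD M] := (htMW.of_dvd (Dvd.intro _ rfl)).trans ht1M
  have htW : W ∣ t := (Nat.modEq_zero_iff_dvd).mp
    ((htMW.of_dvd (Dvd.intro_left _ rfl)).trans ht1W)
  have hts : t ≡ 1 [MOD s] := by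
    have : t ≡ t2 [MOD s] := by
      rw [ht, Nat.ModEq, Nat.add_mul_mod_self_right]
    exact this.trans ht2s
  have hcop : Nat.Coprime s t := by
    have : Nat.gcd t s = Nat.gcd 1 s := hts.gcd_eq
    rw [Nat.gcd_one_left] at this
    exact (Nat.coprime_comm).mp this
  have hst : s ≤ t := by
    have : 1 * s ≤ (M * W) * s := Nat.mul_le_mul_right _ (Nat.mul_pos (by omega) hWpos)
    omega
  have hs1 : s ≡ 1 [MOD M] := by
    rw [hs, Nat.ModEq, Nat.add_mul_mod_self_left]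
  refine ⟨s, t, hMs, hst, hcop, hs1, htM, ?_⟩
  intro p hp hpM hpD
  have hmem : p ∈ S := Finset.mem_filter.mpr
    ⟨Nat.mem_primeFactors.mpr ⟨hp, hpD, hDpos.ne'⟩, hpM⟩
  have hpW : p ∣ W := Finset.dvd_prod_of_mem _ hmem
  refine ⟨?_, hpW.trans htW⟩
  rw [hs, Nat.ModEq]
  obtain ⟨w, hw⟩ := hpW
  rw [show 1 + M * W = 1 + p * (M * w) by rw [hw]; ring, Nat.add_mul_mod_self_left]

end Pool.Agent.CVD
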