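import Mathlib
import Pool.Agent.CVD.Stmts
import Pool.Agent.CVD.Rank

set_option autoImplicit false

/-!
# CVD / U: the theorem on rank multiplicities, from the covering lemma
-/

namespace Pool.Agent.CVD

open Finset

/-- the multiplicity condition for the reduced moduli -/
theorem u_mult (K n : ℕ) (I : Finset ℕ) (hI : I ⊆ n.primeFactors)
    (hn : ∀ d : ℕ, ((n.primeFactors.filter (fun p => rank p = d)).card : ℝ) ≤
      Real.exp (K * Real.sqrt (Real.log d))) :
    Mult (3 * K + 5) I (fun p => rank p / Nat.gcd (rank p) 5040) := by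
  classical
  intro D
  rcases Nat.eq_zero_or_pos D with rfl | hD
  · have h0 : I.filter (fun p => rank p / Nat.gcd (rank p) 5040 = 0) = ∅ := by
      rw [Finset.filter_eq_empty_iff]
      intro p hp h
      have hpp := Nat.prime_of_mem_primeFactors (hI hp)
      have h1 := (rank_spec p hpp).1
      have h2 : Nat.gcd (rank p) 5040 ≤ rank p := Nat.gcd_le_left _ h1
      have h3 := Nat.div_pos h2 (Nat.gcd_pos_of_pos_left _ h1)
      omega
    rw [h0, Finset.card_empty, Nat.cast_zero]
    exact (Real.exp_pos _).le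
  have hsub : I.filter (fun p => rank p / Nat.gcd (rank p) 5040 = D) ⊆
      (Nat.divisors 5040).biUnion (fun g => n.primeFactors.filter (fun p => rank p = g * D)) := by
    intro p hp
    rw [Finset.mem_filter] at hp
    rw [Finset.mem_biUnion]
    refine ⟨Nat.gcd (rank p) 5040, ?_, ?_⟩
    · rw [Nat.mem_divisors]
      exact ⟨Nat.gcd_dvd_right _ _, by norm_num⟩
    · rw [Finset.mem_filter]
      refine ⟨hI hp.1, ?_⟩
      rw [← hp.2]
      exact (Nat.mul_div_cancel' (Nat.gcd_dvd_left _ _)).symm
  have h1 : ((I.filter (fun p => rank p / Nat.gcd (rank p) 5040 = D)).card : ℝ) ≤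
      ∑ g ∈ Nat.divisors 5040, ((n.primeFactors.filter (fun p => rank p = g * D)).card : ℝ) := by
    have := (Finset.card_le_card hsub).trans Finset.card_biUnion_le
    exact_mod_cast this
  have hlogD : 0 ≤ Real.log D := Real.log_nonneg (by exact_mod_cast hD)
  have hD0 : (0 : ℝ) < D := by exact_mod_cast hD
  have hlog : Real.log 5040 ≤ 9 := by
    rw [Real.log_le_iff_le_exp (by norm_num)]
    have h2 : Real.exp 9 = Real.exp 1 ^ 9 := by
      rw [← Real.exp_nat_mul]
      norm_num
    rw [h2]
    have h3 : (2.7182818283 : ℝ) < Real.exp 1 := Real.exp_one_gt_d9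
    calc (5040 : ℝ) ≤ 2.7182818283 ^ 9 := by norm_num
      _ ≤ Real.exp 1 ^ 9 := by gcongr
  have h2 : ∀ g ∈ Nat.divisors 5040,
      ((n.primeFactors.filter (fun p => rank p = g * D)).card : ℝ) ≤
      Real.exp (K * (3 + Real.sqrt (Real.log D))) := by
    intro g hg
    rw [Nat.mem_divisors] at hg
    have hg0 : 0 < g := Nat.pos_of_dvd_of_pos hg.1 (by norm_num)
    have hg1 : g ≤ 5040 := Nat.le_of_dvd (by norm_num) hg.1
    refine (hn (g * D)).trans ?_
    apply Real.exp_le_exp.mpr
    apply mul_le_mul_of_nonneg_left _ (Nat.cast_nonneg K)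
    have h4 : Real.log ((g * D : ℕ) : ℝ) ≤ 9 + Real.log D := by
      have h5 : ((g * D : ℕ) : ℝ) ≤ 5040 * D := by
        have : g * D ≤ 5040 * D := Nat.mul_le_mul_right D hg1
        exact_mod_cast this
      have h6 : (0 : ℝ) < ((g * D : ℕ) : ℝ) := by exact_mod_cast Nat.mul_pos hg0 hD
      calc Real.log ((g * D : ℕ) : ℝ) ≤ Real.log (5040 * D) := Real.log_le_log h6 h5
        _ = Real.log 5040 + Real.log D := Real.log_mul (by norm_num) hD0.ne'
        _ ≤ 9 + Real.log D := by linarith
    calc Real.sqrt (Real.log ((g * D : ℕ) : ℝ)) ≤ Real.sqrt (9 + Real.log D) :=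
          Real.sqrt_le_sqrt h4
      _ ≤ 3 + Real.sqrt (Real.log D) := by
          rw [Real.sqrt_le_left (by positivity)]
          have h7 := Real.sq_sqrt hlogD
          have h8 := Real.sqrt_nonneg (Real.log D)
          nlinarith
  have h3 : ∑ g ∈ Nat.divisors 5040,
      ((n.primeFactors.filter (fun p => rank p = g * D)).card : ℝ) ≤
      60 * Real.exp (K * (3 + Real.sqrt (Real.log D))) := by
    calc ∑ g ∈ Nat.divisors 5040,
        ((n.primeFactors.filter (fun p => rank p = g * D)).card : ℝ) ≤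
        ∑ g ∈ Nat.divisors 5040, Real.exp (K * (3 + Real.sqrt (Real.log D))) :=
          Finset.sum_le_sum h2
      _ = 60 * Real.exp (K * (3 + Real.sqrt (Real.log D))) := by
          rw [Finset.sum_const, nsmul_eq_mul]
          have : (Nat.divisors 5040).card = 60 := by decide +kernel
          rw [this]
          norm_num
  refine h1.trans (h3.trans ?_)
  have h60 : (60 : ℝ) ≤ Real.exp 5 := by
    have h2 : Real.exp 5 = Real.exp 1 ^ 5 := by
      rw [← Real.exp_nat_mul]
      norm_num
    rw [h2]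
    have h3 : (2.7182818283 : ℝ) < Real.exp 1 := Real.exp_one_gt_d9
    calc (60 : ℝ) ≤ 2.7182818283 ^ 5 := by norm_num
      _ ≤ Real.exp 1 ^ 5 := by gcongr
  calc 60 * Real.exp (K * (3 + Real.sqrt (Real.log D))) ≤
      Real.exp 5 * Real.exp (K * (3 + Real.sqrt (Real.log D))) := by gcongr
    _ = Real.exp (5 + K * (3 + Real.sqrt (Real.log D))) := (Real.exp_add _ _).symm
    _ ≤ mm (3 * K + 5) D := by
        unfold mm
        apply Real.exp_le_exp.mpr
        have h8 := Real.sqrt_nonneg (Real.log D)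
        have h9 : (0 : ℝ) ≤ K := Nat.cast_nonneg K
        nlinarith [mul_nonneg h9 h8]

/-- `5040 j - 2` has only trivial common factors with `Z!` -/
theorem u_gcd (Z j : ℕ) (hj : 0 < j)
    (hR : ∀ l : ℕ, l.Prime → 11 ≤ l → l ≤ Z → ¬ l ∣ 5040 * j - 2) :
    Nat.gcd Z.factorial (5040 * j - 2) = 1 ∨ Nat.gcd Z.factorial (5040 * j - 2) = 2 := by
  set g := Nat.gcd Z.factorial (5040 * j - 2) with hg
  have hg0 : 0 < g := Nat.gcd_pos_of_pos_left _ (Nat.factorial_pos Z)
  have hodd : ∀ q : ℕ, q.Prime → q ≠ 2 → ¬ q ∣ g := by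
    intro q hq hq2 hqg
    have h1 : q ∣ Z.factorial := hqg.trans (Nat.gcd_dvd_left _ _)
    have h2 : q ∣ 5040 * j - 2 := hqg.trans (Nat.gcd_dvd_right _ _)
    have h3 : q ≤ Z := (hq.dvd_factorial).mp h1
    rcases Nat.lt_or_ge q 11 with h4 | h4
    · have h5 : q = 3 ∨ q = 5 ∨ q = 7 := by
        interval_cases q <;> first | omega | (exfalso; revert hq; decide)
      have h6 : q ∣ 5040 * j := by
        rcases h5 with rfl | rfl | rfl
        · exact Dvd.dvd.mul_right (by norm_num) j
        · exact Dvd.dvd.mul_right (by norm_num) j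
        · exact Dvd.dvd.mul_right (by norm_num) j
      have h7 : q ∣ 5040 * j - (5040 * j - 2) := Nat.dvd_sub h6 h2
      have h8 : 5040 * j - (5040 * j - 2) = 2 := by omega
      rw [h8] at h7
      have := (Nat.prime_dvd_prime_iff_eq hq Nat.prime_two).mp h7
      exact hq2 this
    · exact hR q hq h4 h3 h2
  have h4 : ¬ 4 ∣ g := by
    intro h
    have h2 : 4 ∣ 5040 * j - 2 := h.trans (Nat.gcd_dvd_right _ _)
    omega
  rcases Nat.even_or_odd g with he | ho
  · right
    obtain ⟨m, hm⟩ := he
    by_contra hne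
    have hm1 : m ≠ 1 := by omega
    obtain ⟨q, hq, hqm⟩ := Nat.exists_prime_and_dvd hm1
    have hqg : q ∣ g := by
      rw [hm]
      exact dvd_add hqm hqm
    by_cases hq2 : q = 2
    · subst hq2
      obtain ⟨m', hm'⟩ := hqm
      exact h4 ⟨m', by omega⟩
    · exact hodd q hq hq2 hqg
  · left
    by_contra hne
    obtain ⟨q, hq, hqg⟩ := Nat.exists_prime_and_dvd hne
    refine hodd q hq ?_ hqg
    rintro rfl
    have : Even g := even_iff_two_dvd.mpr hqg
    exact (Nat.not_even_iff_odd.mpr ho) this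

theorem thm_U (h0 : St_Cov) : St_U := by
  classical
  intro K
  obtain ⟨Z₀, hZ₀, hcov⟩ := h0 (3 * K + 5) (by positivity)
  set Z : ℕ := 5040 * Z₀ with hZ
  obtain ⟨s, t, hMs, hst, hcop, hs1, htM, hstr⟩ := family Z
  have hM0 : 1 < M := by unfold M; norm_num
  refine ⟨A s t, A_rec s t, fun k => ?_, fun n hn hmult => ?_⟩
  · rcases Nat.even_or_odd' k with ⟨j, rfl | rfl⟩
    · exact even_composite s t (by omega) hst j
    · exact odd_composite s t hMs hst hs1 htM _ (by omega)
  set I : Finset ℕ := n.primeFactors.filter (fun p => ¬ p ∣ M ∧ ¬ rank p ∣ Z.factorial) with hI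
  set d : ℕ → ℕ := fun p => rank p / Nat.gcd (rank p) 5040 with hd
  set c : ℕ → ℕ := fun p => if h : ∃ j, p ∣ A s t (5040 * j) then h.choose % d p else d p with hc
  set R : Finset ℕ := (range (Z + 1)).filter (fun l => l.Prime ∧ 11 ≤ l) with hR
  set ρ : ℕ → ℕ := fun l => ((2 : ZMod l) * (5040 : ZMod l)⁻¹).val with hρ
  have hIn : ∀ p ∈ I, p.Prime ∧ p ∣ n ∧ ¬ p ∣ M ∧ ¬ rank p ∣ Z.factorial := by
    intro p hp
    rw [hI, Finset.mem_filter, Nat.mem_primeFactors] at hp
    exact ⟨hp.1.1, hp.1.2.1, hp.2.1, hp.2.2⟩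
  obtain ⟨j, hj1, hj2⟩ := hcov R ρ
    (fun l hl => (Finset.mem_filter.mp hl).2.1) I d c
    (by
      intro p hp
      obtain ⟨hpp, -, -, hpr⟩ := hIn p hp
      have h1 := (rank_spec p hpp).1
      have h2 : Z < rank p := by
        by_contra hcon
        exact hpr (Nat.dvd_factorial h1 (by omega))
      have h3 : Nat.gcd (rank p) 5040 ≤ 5040 := Nat.gcd_le_right _ (by norm_num)
      have h4 : Nat.gcd (rank p) 5040 * d p = rank p :=
        Nat.mul_div_cancel' (Nat.gcd_dvd_left _ _)
      by_contra hcon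
      push Not at hcon
      have h5 : Nat.gcd (rank p) 5040 * d p ≤ 5040 * Z₀ := Nat.mul_le_mul h3 hcon.le
      omega)
    (u_mult K n I (Finset.filter_subset _ _) hmult)
  -- use a positive index
  refine ⟨5040 * j, ?_⟩
  rw [← Nat.coprime_iff_gcd_eq_one]
  apply Nat.coprime_of_dvd
  intro p hp hpn hpA
  by_cases hpM : p ∣ M
  · exact good_M s t p _ hp hst hs1 htM hpM (Dvd.intro _ rfl) hpA
  by_cases hpr : rank p ∣ Z.factorial
  · have hpD : p ∣ Nat.fib Z.factorial := dvd_fib_of_rank p hp _ hpr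
    obtain ⟨hsp, htp⟩ := hstr p hp hpM hpD
    refine good_W s t p _ hp hst hsp htp ?_ hpA
    rcases Nat.eq_zero_or_pos j with h0 | hjpos
    · left
      rw [h0]
    · right
      refine ⟨by omega, fun hF => ?_⟩
      have h1 : p ∣ Nat.gcd (Nat.fib Z.factorial) (Nat.fib (5040 * j - 2)) := Nat.dvd_gcd hpD hF
      rw [← Nat.fib_gcd] at h1
      have h2 := u_gcd Z j hjpos (by
        intro l hl hl11 hlZ hdvd
        haveI : Fact l.Prime := ⟨hl⟩
        apply hj1 l (by
          rw [hR, Finset.mem_filter, Finset.mem_range]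
          exact ⟨by omega, hl, hl11⟩)
        have h3 : ((5040 * j - 2 : ℕ) : ZMod l) = 0 := (ZMod.natCast_eq_zero_iff _ _).mpr hdvd
        have h4 : ((5040 * j - 2 : ℕ) : ZMod l) = 5040 * (j : ZMod l) - 2 := by
          rw [Nat.cast_sub (by omega)]
          push_cast
          ring
        rw [h4] at h3
        have h5 : (5040 : ZMod l) ≠ 0 := by
          intro h5
          have h6 : ((5040 : ℕ) : ZMod l) = 0 := by exact_mod_cast h5
          rw [ZMod.natCast_eq_zero_iff] at h6
          have h7 : (5040 : ℕ) = 2 ^ 4 * 3 ^ 2 * 5 * 7 := by norm_num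
          rw [h7] at h6
          rcases hl.dvd_mul.mp h6 with h8 | h8
          · rcases hl.dvd_mul.mp h8 with h9 | h9
            · rcases hl.dvd_mul.mp h9 with h10 | h10
              · have := Nat.le_of_dvd (by norm_num) (hl.dvd_of_dvd_pow h10)
                omega
              · have := Nat.le_of_dvd (by norm_num) (hl.dvd_of_dvd_pow h10)
                omega
            · have := Nat.le_of_dvd (by norm_num) h9
              omega
          · have := Nat.le_of_dvd (by norm_num) h8
            omega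
        have h6 : (j : ZMod l) = 2 * (5040 : ZMod l)⁻¹ := by
          field_simp
          rw [sub_eq_zero] at h3
          rw [← h3]
          ring
        show j % l = ((2 : ZMod l) * (5040 : ZMod l)⁻¹).val
        rw [← h6, ZMod.val_natCast])
      rcases h2 with h2 | h2
      · rw [h2] at h1
        exact hp.one_lt.ne' (Nat.dvd_one.mp h1)
      · rw [h2] at h1
        exact hp.one_lt.ne' (Nat.dvd_one.mp h1)
  · have hpI : p ∈ I := by
      rw [hI, Finset.mem_filter, Nat.mem_primeFactors]
      exact ⟨⟨hp, hpn, by omega⟩, hpM, hpr⟩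
    have hex : ∃ j, p ∣ A s t (5040 * j) := ⟨j, hpA⟩
    have hcp : c p = hex.choose % d p := by
      show (if h : ∃ j, p ∣ A s t (5040 * j) then h.choose % d p else d p) = _
      rw [dif_pos hex]
    have hj0 : p ∣ A s t (5040 * hex.choose) := hex.choose_spec
    apply hj2 p hpI
    rw [hcp]
    have hp5 : p ≠ 5 := by
      rintro rfl
      apply hpM
      unfold M
      norm_num
    have key : ∀ i m : ℕ, p ∣ A s t (5040 * i) → p ∣ A s t (5040 * (i + m)) → d p ∣ m := by
      intro i m h1 h2
      rcases Nat.eq_zero_or_pos m with rfl | hm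
      · exact dvd_zero _
      have h3 := two_terms s t p hp hst hcop hp5 (5040 * i) (5040 * m) (by omega) h1
        (by rw [← Nat.mul_add]; exact h2)
      exact div_gcd_dvd (rank p) 5040 m (rank_spec p hp).1 (rank_dvd p hp _ h3)
    rcases le_total j hex.choose with h | h
    · obtain ⟨m, hm⟩ := Nat.exists_eq_add_of_le h
      have h1 := key j m hpA (by rw [← hm]; exact hj0)
      rw [hm]
      obtain ⟨q, hq⟩ := h1
      rw [hq, Nat.add_mul_mod_self_left]
    · obtain ⟨m, hm⟩ := Nat.exists_eq_add_of_le h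
      have h1 := key hex.choose m hj0 (by rw [← hm]; exact hpA)
      obtain ⟨q, hq⟩ := h1
      conv_lhs => rw [hm, hq]
      rw [Nat.add_mul_mod_self_left]

end Pool.Agent.CVD
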