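import Mathlib
import Pool.Agent.CVD.Stmts
import Pool.Agent.CVD.Rank

set_option autoImplicit false

/-!
# CVD / V: one direction at an anchor

`a 0 = Q = fib (10080 r) / fib 10080`; all primes dividing `Q` have rank divisible by the prime `r`; the indices
`5040 L j`, `r ∤ j`, with `L` the product of the parts prime to `r` of the ranks of the primes dividing `n`.
-/

namespace Pool.Agent.CVD

open Finset

/-! ### the anchor -/

theorem M_pos : 0 < M := by unfold M; norm_num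

theorem M2_dvd : 2 * M ∣ Nat.fib 5040 := by
  obtain ⟨c, hc⟩ := M_dvd
  have h4 : 4 ∣ Nat.fib 5040 := by
    have h1 : Nat.fib 6 ∣ Nat.fib 5040 := Nat.fib_dvd 6 5040 (by norm_num)
    have h2 : Nat.fib 6 = 8 := by decide
    rw [h2] at h1
    exact (by norm_num : 4 ∣ 8).trans h1
  have hM : M % 4 = 2 := by
    unfold M
    norm_num
  rcases Nat.even_or_odd c with he | ho
  · obtain ⟨m, hm⟩ := he
    rw [hc, hm]
    exact ⟨m, by ring⟩
  · exfalso
    rw [hc] at h4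
    have h5 : M * c % 4 = 0 := Nat.mod_eq_zero_of_dvd h4
    obtain ⟨m, hm⟩ := ho
    rw [Nat.mul_mod, hM, hm] at h5
    omega

theorem cassini (m : ℕ) : (Nat.fib (2 * m + 1) : ℤ) ^ 2 - Nat.fib (2 * m + 1) * Nat.fib (2 * m) -
      (Nat.fib (2 * m) : ℤ) ^ 2 = 1 := by
  induction m with
  | zero => norm_num
  | succ m ih =>
    have e1 : Nat.fib (2 * (m + 1)) = Nat.fib (2 * m) + Nat.fib (2 * m + 1) := Nat.fib_add_two
    have e2 : Nat.fib (2 * (m + 1) + 1) = Nat.fib (2 * m + 1) + Nat.fib (2 * (m + 1)) :=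
      Nat.fib_add_two
    rw [e2, e1]
    push_cast
    linarith

/-- `F (2 h + 1) = F h ^ 2 + F (h + 1) ^ 2` modulo a divisor of `F h`, `h` even -/
theorem f_succ (N h : ℕ) (hN : N ∣ Nat.fib (2 * h)) :
    ((Nat.fib (4 * h + 1) : ℕ) : ZMod N) = 1 := by
  have h1 := Nat.fib_add (2 * h) (2 * h)
  rw [show 2 * h + 2 * h + 1 = 4 * h + 1 by ring] at h1
  have h3 := cassini h
  have h4 : ((Nat.fib (2 * h) : ℕ) : ZMod N) = 0 := (ZMod.natCast_eq_zero_iff _ _).mpr hN
  have h5 := congrArg (fun z : ℤ => (z : ZMod N)) h3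
  simp only [Int.cast_sub, Int.cast_pow, Int.cast_mul, Int.cast_natCast, Int.cast_one, h4] at h5
  rw [h1, Nat.cast_add, Nat.cast_mul, Nat.cast_mul, h4]
  linear_combination h5

/-- the quotients `fib ((k + 1) m) / fib (k + 1)` -/
def qq (k : ℕ) : ℕ → ℕ
  | 0 => 0
  | m + 1 => qq k m * Nat.fib k + Nat.fib ((k + 1) * m + 1)

theorem qq_succ (k m : ℕ) : qq k (m + 1) = qq k m * Nat.fib k + Nat.fib ((k + 1) * m + 1) := rfl

theorem qq_mul (k m : ℕ) : Nat.fib ((k + 1) * m) = Nat.fib (k + 1) * qq k m := by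
  induction m with
  | zero => simp [qq]
  | succ m ih =>
    have h1 := Nat.fib_add ((k + 1) * m) k
    rw [show (k + 1) * m + k + 1 = (k + 1) * (m + 1) by ring] at h1
    rw [h1, ih, qq_succ]
    ring

/-- the values next to the zeros, modulo a divisor of `fib (k + 1)` -/
theorem fib_near (k p m : ℕ) (hp : ((Nat.fib (k + 1) : ℕ) : ZMod p) = 0) :
    ((Nat.fib ((k + 1) * m + 1) : ℕ) : ZMod p) = ((Nat.fib (k + 2) : ℕ) : ZMod p) ^ m := by
  induction m with
  | zero => simp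
  | succ m ih =>
    have h1 := Nat.fib_add ((k + 1) * m) (k + 1)
    rw [show (k + 1) * m + (k + 1) + 1 = (k + 1) * (m + 1) + 1 by ring] at h1
    rw [h1, Nat.cast_add, Nat.cast_mul, Nat.cast_mul, hp, mul_zero, zero_add, ih, pow_succ]

theorem qq_mod (k p m : ℕ) (hp : ((Nat.fib (k + 1) : ℕ) : ZMod p) = 0) :
    ((qq k m : ℕ) : ZMod p) * ((Nat.fib (k + 2) : ℕ) : ZMod p) =
      m * ((Nat.fib (k + 2) : ℕ) : ZMod p) ^ m := by
  have h0 : ((Nat.fib k : ℕ) : ZMod p) = ((Nat.fib (k + 2) : ℕ) : ZMod p) := by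
    have h1 : Nat.fib (k + 2) = Nat.fib k + Nat.fib (k + 1) := Nat.fib_add_two
    rw [h1, Nat.cast_add, hp, add_zero]
  induction m with
  | zero => simp [qq]
  | succ m ih =>
    rw [qq_succ, Nat.cast_add, Nat.cast_mul, h0, fib_near k p m hp, add_mul,
      mul_right_comm, ih]
    push_cast
    ring

theorem qq_mod_one (k N m : ℕ) (h0 : ((Nat.fib (k + 1) : ℕ) : ZMod N) = 0)
    (h1 : ((Nat.fib (k + 2) : ℕ) : ZMod N) = 1) : qq k m ≡ m [MOD N] := by
  have h := qq_mod k N m h0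
  rw [h1, mul_one, one_pow, mul_one] at h
  exact (ZMod.natCast_eq_natCast_iff _ _ _).mp h

theorem qq_coprime (k r : ℕ) (hr : r.Prime) (hbig : Nat.fib (k + 1) < r) (p : ℕ) (hp : p.Prime)
    (h1 : p ∣ qq k r) : ¬ p ∣ Nat.fib (k + 1) := by
  intro h2
  have hpF : Fact p.Prime := ⟨hp⟩
  have h3 : ((Nat.fib (k + 1) : ℕ) : ZMod p) = 0 := (ZMod.natCast_eq_zero_iff _ _).mpr h2
  have h4 := qq_mod k p r h3
  have h5 : ((qq k r : ℕ) : ZMod p) = 0 := (ZMod.natCast_eq_zero_iff _ _).mpr h1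
  rw [h5, zero_mul] at h4
  have h6 : ((r : ℕ) : ZMod p) ≠ 0 := by
    intro h
    rw [ZMod.natCast_eq_zero_iff] at h
    have h7 : p = r := (Nat.prime_dvd_prime_iff_eq hp hr).mp h
    have h8 : p ≤ Nat.fib (k + 1) := Nat.le_of_dvd (Nat.fib_pos.mpr (by omega)) h2
    omega
  have h7 : ((Nat.fib (k + 2) : ℕ) : ZMod p) ≠ 0 := by
    intro h
    rw [ZMod.natCast_eq_zero_iff] at h
    exact Nat.not_coprime_of_dvd_of_dvd hp.one_lt h2 h (Nat.fib_coprime_fib_succ (k + 1))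
  exact mul_ne_zero h6 (pow_ne_zero _ h7) h4.symm

theorem qq_rank (k r : ℕ) (hr : r.Prime) (hbig : Nat.fib (k + 1) < r) (p : ℕ) (hp : p.Prime)
    (h1 : p ∣ qq k r) : r ∣ rank p := by
  have h2 : p ∣ Nat.fib ((k + 1) * r) := by
    rw [qq_mul]
    exact dvd_mul_of_dvd_right h1 _
  have h3 := rank_dvd p hp _ h2
  by_contra h4
  have h5 : Nat.Coprime (rank p) r := ((Nat.Prime.coprime_iff_not_dvd hr).mpr h4).symm
  have h6 : rank p ∣ k + 1 := h5.dvd_of_dvd_mul_right h3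
  exact qq_coprime k r hr hbig p hp h1 (dvd_fib_of_rank p hp _ h6)

theorem qq_lower (k m : ℕ) : Nat.fib ((k + 1) * m + 1) ≤ qq k (m + 1) := by
  rw [qq_succ]
  exact Nat.le_add_left _ _

theorem fib_dvd_qq (k r : ℕ) (hr : r.Prime) (hbig : k + 1 < r) : Nat.fib r ∣ qq k r := by
  have h1 : Nat.fib r ∣ Nat.fib (k + 1) * qq k r := by
    rw [← qq_mul]
    exact Nat.fib_dvd _ _ (Dvd.intro_left _ rfl)
  have h2 : Nat.Coprime (Nat.fib r) (Nat.fib (k + 1)) := by
    have h3 : Nat.gcd r (k + 1) = 1 := by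
      have h4 : Nat.Coprime r (k + 1) := by
        rw [Nat.Prime.coprime_iff_not_dvd hr]
        intro h
        have := Nat.le_of_dvd (by omega) h
        omega
      exact h4
    rw [Nat.coprime_iff_gcd_eq_one, ← Nat.fib_gcd, h3]
    rfl
  exact h2.dvd_of_dvd_mul_left h1

/-! ### the anchored family -/

/-- for every `K` a prime `r > K` and `t` with `A 1 t 0 = 2 t - 1` having all prime factors of rank divisible by `r` -/
theorem anchor (K : ℕ) : ∃ r t : ℕ, K < r ∧ 5040 < r ∧ r.Prime ∧ M < t ∧ t ≡ X [MOD M] ∧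
    ¬ (2 * t - 1).Prime ∧ ∀ p : ℕ, p.Prime → p ∣ 2 * t - 1 → r ∣ rank p := by
  have hM := M_pos
  have hX : 1 ≤ 2 * X := by unfold X; norm_num
  -- the residue of `r`
  have hcop : Nat.Coprime (2 * X - 1) (2 * M) := by
    refine Nat.Coprime.mul_right ?_ X_coprime
    have : Odd (2 * X - 1) := by
      have hX1 : 1 ≤ X := by omega
      exact ⟨X - 1, by omega⟩
    exact this.coprime_two_right
  have hf10080 : ((Nat.fib (10079 + 1) : ℕ) : ZMod (2 * M)) = 0 :=
    (ZMod.natCast_eq_zero_iff _ _).mpr (M2_dvd.trans (Nat.fib_dvd _ _ (by norm_num)))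
  have hf10081 : ((Nat.fib (10079 + 2) : ℕ) : ZMod (2 * M)) = 1 := by
    have h1 := f_succ (2 * M) 2520 (by
      have h2 : 2 * 2520 = 5040 := by norm_num
      rw [h2]
      exact M2_dvd)
    have h3 : 4 * 2520 + 1 = 10079 + 2 := by norm_num
    rw [h3] at h1
    exact h1
  have hne : NeZero (2 * M) := ⟨by omega⟩
  obtain ⟨r, hrbig, hr, hrmod⟩ := Nat.forall_exists_prime_gt_and_eq_mod
    (q := 2 * M) (a := ((2 * X - 1 : ℕ) : ZMod (2 * M)))
    ((ZMod.isUnit_iff_coprime _ _).mpr hcop) (K + Nat.fib (10079 + 1) + 20160 + 2 * M)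
  have hrmod' : r ≡ 2 * X - 1 [MOD 2 * M] := (ZMod.natCast_eq_natCast_iff _ _ _).mp hrmod
  have hqmod : qq 10079 r ≡ 2 * X - 1 [MOD 2 * M] :=
    (qq_mod_one 10079 (2 * M) r hf10080 hf10081).trans hrmod'
  -- size
  obtain ⟨m, rfl⟩ : ∃ m, r = m + 1 := ⟨r - 1, by omega⟩
  have hlow := qq_lower 10079 m
  have hm1 : m + 1 < (10079 + 1) * m + 1 := by omega
  have hfm : Nat.fib (m + 1) < Nat.fib ((10079 + 1) * m + 1) :=
    (Nat.fib_lt_fib (by omega)).mpr hm1
  have hfm2 : m + 1 ≤ Nat.fib (m + 1) := Nat.le_fib_self (by omega)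
  have hQ : m + 1 < qq 10079 (m + 1) := by omega
  -- `Q` is odd
  have hodd : qq 10079 (m + 1) % 2 = 1 := by
    have h1 : qq 10079 (m + 1) ≡ 2 * X - 1 [MOD 2] := hqmod.of_dvd (Dvd.intro _ rfl)
    have h2 : (2 * X - 1) % 2 = 1 := by omega
    rw [← h2]
    exact h1
  obtain ⟨t, ht⟩ : ∃ t, qq 10079 (m + 1) = 2 * t - 1 := ⟨(qq 10079 (m + 1) + 1) / 2, by omega⟩
  have htpos : 1 ≤ t := by omega
  refine ⟨m + 1, t, by omega, by omega, hr, by omega, ?_, ?_, ?_⟩
  · have h1 : 2 * t ≡ 2 * X [MOD 2 * M] := by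
      have h2 : 2 * t - 1 + 1 ≡ 2 * X - 1 + 1 [MOD 2 * M] := by
        rw [← ht]
        exact Nat.ModEq.add_right 1 hqmod
      rw [show 2 * t - 1 + 1 = 2 * t by omega, show 2 * X - 1 + 1 = 2 * X by omega] at h2
      exact h2
    exact Nat.ModEq.mul_left_cancel' (by norm_num) h1
  · rw [← ht]
    intro hp
    have h1 := fib_dvd_qq 10079 (m + 1) hr (by omega)
    rcases (Nat.dvd_prime hp).mp h1 with h2 | h2 <;> omega
  · intro p hp hpt
    rw [← ht] at hpt
    exact qq_rank 10079 (m + 1) hr (by omega) p hp hpt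

end Pool.Agent.CVD
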