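import Mathlib
import Pool.Agent.CVD.Stmts
import Pool.Agent.CVD.Rank

set_option autoImplicit false

/-!
# CVD / VT: the primes of one direction are few

If `p ∣ a k` and `p ∣ fib (k N)` then `p` divides the second coordinate of `(c + d φ) ^ N`, `c = a 1 - a 0`, `d = a 0`.
-/

namespace Pool.Agent.CVD

open Finset Matrix

/-- coordinates of `(c + d φ) ^ m`, `φ ^ 2 = φ + 1` -/
def xy (c d : ℕ) : ℕ → ℕ × ℕ
  | 0 => (1, 0)
  | m + 1 => ((xy c d m).1 * c + (xy c d m).2 * d, (xy c d m).1 * d + (xy c d m).2 * (c + d))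

theorem xy_succ (c d m : ℕ) : xy c d (m + 1) =
    ((xy c d m).1 * c + (xy c d m).2 * d, (xy c d m).1 * d + (xy c d m).2 * (c + d)) := rfl

theorem xy_pos (c d : ℕ) (hd : 0 < d) (m : ℕ) : 0 < (xy c d (m + 1)).2 := by
  induction m with
  | zero =>
    show 0 < 1 * d + 0 * (c + d)
    omega
  | succ m ih =>
    rw [xy_succ]
    show 0 < (xy c d (m + 1)).1 * d + (xy c d (m + 1)).2 * (c + d)
    have := Nat.mul_pos ih (show 0 < c + d by omega)
    omega

theorem xy_le (c d m : ℕ) : (xy c d m).1 + (xy c d m).2 ≤ (c + 2 * d) ^ m := by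
  induction m with
  | zero =>
    show 1 + 0 ≤ _
    simp
  | succ m ih =>
    rw [xy_succ, pow_succ]
    show (xy c d m).1 * c + (xy c d m).2 * d + ((xy c d m).1 * d + (xy c d m).2 * (c + d)) ≤ _
    calc (xy c d m).1 * c + (xy c d m).2 * d + ((xy c d m).1 * d + (xy c d m).2 * (c + d))
        ≤ ((xy c d m).1 + (xy c d m).2) * (c + 2 * d) := by
          have : 0 ≤ (xy c d m).1 * d := Nat.zero_le _
          nlinarith
      _ ≤ (c + 2 * d) ^ m * (c + 2 * d) := Nat.mul_le_mul_right _ ih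

section Mat

variable (p : ℕ)

/-- the Fibonacci matrix modulo `p` -/
def FF : Matrix (Fin 2) (Fin 2) (ZMod p) := !![1, 1; 1, 0]

theorem FF_sq : FF p * FF p = FF p + 1 := by
  unfold FF
  ext i j
  fin_cases i <;> fin_cases j <;> simp [Matrix.mul_apply, Fin.sum_univ_two]

theorem FF_pow (k : ℕ) : FF p ^ (k + 1) = (Nat.fib (k + 1) : ZMod p) • FF p +
    (Nat.fib k : ZMod p) • (1 : Matrix (Fin 2) (Fin 2) (ZMod p)) := by
  induction k with
  | zero => simp
  | succ k ih =>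
    rw [pow_succ, ih, add_mul, smul_mul_assoc, smul_mul_assoc, FF_sq, one_mul, smul_add]
    have h : Nat.fib (k + 1 + 1) = Nat.fib k + Nat.fib (k + 1) := Nat.fib_add_two
    rw [h]
    push_cast
    rw [add_smul]
    abel

theorem xy_pow (c d m : ℕ) :
    ((c : ZMod p) • (1 : Matrix (Fin 2) (Fin 2) (ZMod p)) + (d : ZMod p) • FF p) ^ m =
    ((xy c d m).1 : ZMod p) • (1 : Matrix (Fin 2) (Fin 2) (ZMod p)) +
      ((xy c d m).2 : ZMod p) • FF p := by
  induction m with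
  | zero =>
    show _ = ((1 : ℕ) : ZMod p) • (1 : Matrix (Fin 2) (Fin 2) (ZMod p)) + ((0 : ℕ) : ZMod p) • FF p
    simp
  | succ m ih =>
    rw [pow_succ, ih, xy_succ]
    push_cast
    simp only [mul_add, add_mul, smul_mul_smul_comm, one_mul, mul_one, FF_sq, smul_add, add_smul]
    abel

end Mat

theorem dvd_xy (a : ℕ → ℕ) (ha : ∀ n, a (n + 2) = a (n + 1) + a n) (h01 : a 0 ≤ a 1)
    (p : ℕ) (hp : p.Prime) (k N : ℕ) (hk : 0 < k) (hN : 0 < N) (h1 : p ∣ a k)
    (h2 : p ∣ Nat.fib (k * N)) : p ∣ (xy (a 1 - a 0) (a 0) N).2 := by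
  have hpF : Fact p.Prime := ⟨hp⟩
  obtain ⟨k, rfl⟩ : ∃ k', k = k' + 1 := ⟨k - 1, by omega⟩
  set B : Matrix (Fin 2) (Fin 2) (ZMod p) :=
    ((a 1 - a 0 : ℕ) : ZMod p) • (1 : Matrix (Fin 2) (Fin 2) (ZMod p)) +
      ((a 0 : ℕ) : ZMod p) • FF p with hB
  -- the product with a power of `FF` is scalar
  have e1 : a (k + 1) = a 0 * Nat.fib k + a 1 * Nat.fib (k + 1) := by
    have := add_formula a ha 0 k
    rw [zero_add] at this
    exact this
  have hscal : ∃ e : ZMod p, B * FF p ^ (k + 1) = e • (1 : Matrix (Fin 2) (Fin 2) (ZMod p)) := by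
    have h3 : ((a 0 : ℕ) : ZMod p) * (Nat.fib k : ZMod p) +
        ((a 1 : ℕ) : ZMod p) * (Nat.fib (k + 1) : ZMod p) = 0 := by
      have : ((a (k + 1) : ℕ) : ZMod p) = 0 := (ZMod.natCast_eq_zero_iff _ _).mpr h1
      rw [e1] at this
      push_cast at this
      exact this
    refine ⟨((a 1 - a 0 : ℕ) : ZMod p) * (Nat.fib k : ZMod p) +
      ((a 0 : ℕ) : ZMod p) * (Nat.fib (k + 1) : ZMod p), ?_⟩
    rw [FF_pow, hB]
    simp only [mul_add, add_mul, smul_mul_smul_comm, one_mul, mul_one, FF_sq, smul_add, add_smul]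
    have h4 : ((a 1 - a 0 : ℕ) : ZMod p) * (Nat.fib (k + 1) : ZMod p) +
        ((a 0 : ℕ) : ZMod p) * (Nat.fib (k + 1) : ZMod p) +
        ((a 0 : ℕ) : ZMod p) * (Nat.fib k : ZMod p) = 0 := by
      rw [Nat.cast_sub h01]
      linear_combination h3
    have h5 : (((a 1 - a 0 : ℕ) : ZMod p) * (Nat.fib (k + 1) : ZMod p)) • FF p +
        (((a 0 : ℕ) : ZMod p) * (Nat.fib (k + 1) : ZMod p)) • FF p +
        (((a 0 : ℕ) : ZMod p) * (Nat.fib k : ZMod p)) • FF p = 0 := by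
      rw [← add_smul, ← add_smul, h4, zero_smul]
    calc _ = ((((a 1 - a 0 : ℕ) : ZMod p) * (Nat.fib (k + 1) : ZMod p)) • FF p +
        (((a 0 : ℕ) : ZMod p) * (Nat.fib (k + 1) : ZMod p)) • FF p +
        (((a 0 : ℕ) : ZMod p) * (Nat.fib k : ZMod p)) • FF p) +
        ((((a 1 - a 0 : ℕ) : ZMod p) * (Nat.fib k : ZMod p)) •
            (1 : Matrix (Fin 2) (Fin 2) (ZMod p)) +
          (((a 0 : ℕ) : ZMod p) * (Nat.fib (k + 1) : ZMod p)) •
            (1 : Matrix (Fin 2) (Fin 2) (ZMod p))) := by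
          abel
      _ = _ := by rw [h5, zero_add]
  obtain ⟨e, he⟩ := hscal
  have hcomm : Commute B (FF p ^ (k + 1)) := by
    apply Commute.pow_right
    rw [hB]
    apply Commute.add_left
    · exact (Commute.one_left (FF p)).smul_left _
    · exact (Commute.refl (FF p)).smul_left _
  have h6 : B ^ N * FF p ^ ((k + 1) * N) = e ^ N • (1 : Matrix (Fin 2) (Fin 2) (ZMod p)) := by
    rw [pow_mul, ← hcomm.mul_pow, he, smul_pow, one_pow]
  obtain ⟨j, hj⟩ : ∃ j, (k + 1) * N = j + 1 :=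
    ⟨(k + 1) * N - 1, by have := Nat.mul_pos (show 0 < k + 1 by omega) hN; omega⟩
  rw [hj] at h2 h6
  have hz : ((Nat.fib (j + 1) : ℕ) : ZMod p) = 0 := (ZMod.natCast_eq_zero_iff _ _).mpr h2
  have hnz : ((Nat.fib j : ℕ) : ZMod p) ≠ 0 := by
    intro h
    rw [ZMod.natCast_eq_zero_iff] at h
    exact Nat.not_coprime_of_dvd_of_dvd hp.one_lt h h2 (Nat.fib_coprime_fib_succ j)
  rw [FF_pow, hz, zero_smul, zero_add, hB, xy_pow, mul_smul_comm, mul_one, smul_add] at h6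
  have h7 := congrFun (congrFun h6 0) 1
  simp only [FF, Matrix.add_apply, Matrix.smul_apply, Matrix.one_apply, Matrix.of_apply,
    Matrix.cons_val', Matrix.cons_val_zero, Matrix.cons_val_one, smul_eq_mul] at h7
  have h8 : ((Nat.fib j : ℕ) : ZMod p) * (((xy (a 1 - a 0) (a 0) N).2 : ℕ) : ZMod p) = 0 := by
    simpa using h7
  rcases mul_eq_zero.mp h8 with h9 | h9
  · exact absurd h9 hnz
  · exact (ZMod.natCast_eq_zero_iff _ _).mp h9

/-- the rank of apparition is at most `p ^ 2` -/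
theorem rank_le (p : ℕ) (hp : p.Prime) : rank p ≤ p ^ 2 := by
  have hpF : Fact p.Prime := ⟨hp⟩
  let f : Fin (p ^ 2 + 1) → ZMod p × ZMod p :=
    fun k => ((Nat.fib k : ZMod p), (Nat.fib (k + 1) : ZMod p))
  obtain ⟨i, j, hne, hij⟩ := Fintype.exists_ne_map_eq_of_card_lt f (by
    rw [Fintype.card_prod, ZMod.card, Fintype.card_fin]
    nlinarith)
  have key : ∀ i m : ℕ, (Nat.fib i : ZMod p) = (Nat.fib (i + m) : ZMod p) →
      (Nat.fib (i + 1) : ZMod p) = (Nat.fib (i + m + 1) : ZMod p) → p ∣ Nat.fib m := by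
    intro i
    induction i with
    | zero =>
      intro m h1 h2
      rw [zero_add] at h1
      rw [← ZMod.natCast_eq_zero_iff, ← h1]
      simp
    | succ i ih =>
      intro m h1 h2
      apply ih m
      · have e1 : Nat.fib (i + 1 + 1) = Nat.fib i + Nat.fib (i + 1) := Nat.fib_add_two
        have e2 : Nat.fib (i + 1 + m + 1) = Nat.fib (i + m) + Nat.fib (i + 1 + m) := by
          rw [show i + 1 + m + 1 = i + m + 2 by ring, Nat.fib_add_two,
            show i + m + 1 = i + 1 + m by ring]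
        rw [e1, e2, Nat.cast_add, Nat.cast_add, h1] at h2
        exact add_right_cancel h2
      · rw [show i + m + 1 = i + 1 + m by ring]
        exact h1
  have h3 : ∀ i j : Fin (p ^ 2 + 1), i < j → f i = f j → rank p ≤ p ^ 2 := by
    intro i j hlt h
    obtain ⟨m, hm⟩ := Nat.exists_eq_add_of_le (show (i : ℕ) ≤ j from hlt.le)
    have h4 := key i m (by rw [← hm]; exact (Prod.ext_iff.mp h).1)
      (by rw [← hm]; exact (Prod.ext_iff.mp h).2)
    have hlt' : (i : ℕ) < j := hlt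
    have h5 : rank p ≤ m := Nat.sInf_le ⟨by omega, h4⟩
    have h6 := j.isLt
    omega
  rcases lt_or_gt_of_ne hne with h | h
  · exact h3 i j h hij
  · exact h3 j i h hij.symm

/-- counting primes -/
theorem card_primes_le (r v N B : ℕ) (hr : 2 ≤ r) (hv : 1 ≤ v) (hN : 0 < N) (hB : 1 ≤ B)
    (hNB : N ≤ B ^ r ^ v) (T : Finset ℕ) (hT : ∀ p ∈ T, p.Prime ∧ p ∣ N ∧ r ^ v ≤ p ^ 2) :
    (T.card : ℝ) ≤ 2 * Real.log B / Real.log r * (r : ℝ) ^ v / v := by
  have h1 : ∏ p ∈ T, p ∣ N := Finset.prod_primes_dvd N (fun p hp => (hT p hp).1.prime)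
    (fun p hp => (hT p hp).2.1)
  have h2 : ∏ p ∈ T, p ≤ B ^ r ^ v := (Nat.le_of_dvd hN h1).trans hNB
  have h3 : (r ^ v) ^ T.card ≤ (B ^ r ^ v) ^ 2 := by
    calc (r ^ v) ^ T.card = ∏ _p ∈ T, r ^ v := by rw [Finset.prod_const]
      _ ≤ ∏ p ∈ T, p ^ 2 := Finset.prod_le_prod' fun p hp => (hT p hp).2.2
      _ = (∏ p ∈ T, p) ^ 2 := by rw [Finset.prod_pow]
      _ ≤ (B ^ r ^ v) ^ 2 := Nat.pow_le_pow_left h2 2
  have hr0 : (0 : ℝ) < r := by exact_mod_cast (by omega : 0 < r)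
  have hB0 : (0 : ℝ) < B := by exact_mod_cast hB
  have h4 : ((r : ℝ) ^ v) ^ T.card ≤ ((B : ℝ) ^ r ^ v) ^ 2 := by exact_mod_cast h3
  have h5 := Real.log_le_log (by positivity) h4
  rw [Real.log_pow, Real.log_pow, Real.log_pow, Real.log_pow] at h5
  have hlr : 0 < Real.log r := Real.log_pos (by exact_mod_cast (by omega : 1 < r))
  have hv0 : (0 : ℝ) < v := by exact_mod_cast hv
  rw [le_div_iff₀ hv0, div_mul_eq_mul_div, le_div_iff₀ hlr]
  push_cast at h5
  nlinarith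

end Pool.Agent.CVD
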