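import Mathlib
import Pool.Agent.CVD.Stmts
import Pool.Agent.CVD.Rank
import Pool.Agent.CVD.V
import Pool.Agent.CVD.VT

set_option autoImplicit false

/-!
# CVD / VM: the theorem on one direction
-/

namespace Pool.Agent.CVD

open Finset

lemma even_composite1 (t : ℕ) (ht : 2 ≤ t) (h0 : ¬ (2 * t - 1).Prime) (n : ℕ) :
    1 < A 1 t (2 * n) ∧ ¬ (A 1 t (2 * n)).Prime := by
  rw [(factor 1 t (by omega) n).1]
  rcases Nat.eq_zero_or_pos n with rfl | hn
  · show 1 < 1 * (2 * t - 1) ∧ ¬ (1 * (2 * t - 1)).Prime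
    rw [one_mul]
    exact ⟨by omega, h0⟩
  · obtain ⟨h1, h2⟩ := u_mono 1 t (by omega) n
    have h3 : 2 ≤ G 1 t n := by
      obtain ⟨m, rfl⟩ : ∃ m, n = m + 1 := ⟨n - 1, by omega⟩
      clear h1 h2 hn
      induction m with
      | zero => exact ht
      | succ m ih =>
        exact ih.trans (u_mono 1 t (by omega) (m + 1)).2
    have h4 : 2 ≤ 2 * G 1 t (n + 1) - G 1 t n := by omega
    refine ⟨by nlinarith, Nat.not_prime_mul (by omega) (by omega)⟩

lemma odd_composite1 (t : ℕ) (hMt : M < t) (ht : t ≡ X [MOD M]) (k : ℕ) (hk : k % 2 = 1) :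
    1 < A 1 t k ∧ ¬ (A 1 t k).Prime := by
  obtain ⟨⟨z, r, m, x⟩, hc, hkz⟩ := cover' k hk
  have h1 := data_fib _ hc
  have h2 := data_zero _ hc
  have h3 := data_misc _ hc
  simp only at h1 h2 h3 hkz
  obtain ⟨hr1, hrz, hm1, hx1, hmM, hXx⟩ := h3
  have ht' : (t : ZMod m) = x := by
    have a1 := (ZMod.natCast_eq_natCast_iff t X m).mpr (ht.of_dvd hmM)
    have a2 := (ZMod.natCast_eq_natCast_iff X x m).mpr hXx
    rw [a1, a2]
  have hA0 : ((A 1 t 0 : ℕ) : ZMod m) = 2 * x - 1 := by
    have : A 1 t 0 = 1 * (2 * t - 1) := rfl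
    rw [this, Nat.cast_mul, Nat.cast_sub (by omega), Nat.cast_mul, ht']
    push_cast; ring
  have hA1 : ((A 1 t 1 : ℕ) : ZMod m) = 1 + (x : ZMod m) ^ 2 := by
    have : A 1 t 1 = 1 ^ 2 + t ^ 2 := rfl
    rw [this, Nat.cast_add, Nat.cast_pow, Nat.cast_pow, ht', Nat.cast_one, one_pow]
  have hAr : m ∣ A 1 t r := by
    have e : A 1 t r = A 1 t 0 * Nat.fib (r - 1) + A 1 t 1 * Nat.fib r := by
      have := add_formula (A 1 t) (A_rec 1 t) 0 (r - 1)
      rw [show 0 + (r - 1) + 1 = r by omega, show r - 1 + 1 = r by omega] at this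
      exact this
    rw [← ZMod.natCast_eq_zero_iff, e, Nat.cast_add, Nat.cast_mul, Nat.cast_mul, hA0, hA1]
    rw [← ZMod.natCast_eq_zero_iff, Nat.cast_add, Nat.cast_mul, Nat.cast_mul,
      Nat.cast_sub (by omega)] at h2
    push_cast at h2
    exact h2
  have hdvd : m ∣ A 1 t k := by
    have := class_dvd 1 t m z r (by omega) h1 hAr (k / z)
    rwa [← hkz, Nat.mod_add_div] at this
  obtain ⟨n, rfl⟩ : ∃ n, k = 2 * n + 1 := ⟨k / 2, by omega⟩
  obtain ⟨h5, h6⟩ := u_mono 1 t (by omega) n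
  have h7 : t ≤ G 1 t (n + 1) := by
    clear h5 h6 hk hkz hdvd
    induction n with
    | zero => exact le_rfl
    | succ n ih => exact ih.trans (u_mono 1 t (by omega) (n + 1)).2
  have hmle : m ≤ M := Nat.le_of_dvd M_pos hmM
  have hbig : m < A 1 t (2 * n + 1) := by
    rw [(factor 1 t (by omega) n).2]
    nlinarith
  refine ⟨by omega, fun hp => ?_⟩
  rcases (Nat.dvd_prime hp).mp hdvd with h | h <;> omega

/-- the primes which matter for the direction `r`: `r ∣ rank p` and `p` divides a term `a k` whose index `k` is not divisible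
by `r` but is divisible by the part of `rank p` prime to `r` -/
def Dir (r : ℕ) (a : ℕ → ℕ) (p : ℕ) : Prop :=
  r ∣ rank p ∧ ∃ k, ¬ r ∣ k ∧ rank p ∣ r ^ (rank p).factorization r * k ∧ p ∣ a k

/-- numbers in one class modulo a divisor -/
theorem card_class (D E : ℕ) (hD : 0 < D) (S : Finset ℕ) (hS : ∀ j ∈ S, j < D * E)
    (hc : ∀ i ∈ S, ∀ j ∈ S, i % D = j % D) : S.card ≤ E := by
  have h1 : S.card ≤ (range E).card := by
    apply Finset.card_le_card_of_injOn (fun j => j / D)
    · intro j hj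
      have := hS j hj
      rw [Finset.coe_range]
      exact Nat.div_lt_of_lt_mul this
    · intro i hi j hj hij
      have h2 := hc i hi j hj
      have h3 := Nat.div_add_mod i D
      have h4 := Nat.div_add_mod j D
      have h5 : i / D = j / D := hij
      rw [← h3, ← h4, h2, h5]
  rwa [card_range] at h1

/-- numbers below `r ^ (V + 1)` not divisible by `r` -/
theorem card_not_dvd (r V : ℕ) (hr : 2 ≤ r) :
    r ^ (V + 1) - r ^ V ≤ ((range (r ^ (V + 1))).filter (fun j => ¬ r ∣ j)).card := by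
  have h1 := Finset.card_filter_add_card_filter_not (s := range (r ^ (V + 1))) (fun j => r ∣ j)
  rw [card_range] at h1
  have h2 : ((range (r ^ (V + 1))).filter (fun j => r ∣ j)).card ≤ r ^ V := by
    apply card_class r (r ^ V) (by omega)
    · intro j hj
      rw [mem_filter, mem_range] at hj
      rw [← pow_succ']
      exact hj.1
    · intro i hi j hj
      rw [mem_filter] at hi hj
      rw [Nat.mod_eq_zero_of_dvd hi.2, Nat.mod_eq_zero_of_dvd hj.2]
  omega

theorem good_direction (r t : ℕ) (hr : r.Prime) (hr5040 : 5040 < r) (hMt : M < t)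
    (ht : t ≡ X [MOD M]) (hQ : ∀ p : ℕ, p.Prime → p ∣ 2 * t - 1 → r ∣ rank p)
    (n : ℕ) (hn : 1 < n) (T : Finset ℕ) (hT : ∀ p, p ∈ T ↔ p ∈ n.primeFactors ∧ Dir r (A 1 t) p)
    (hsum : ∑ p ∈ T, 1 / (r : ℝ) ^ (rank p).factorization r < 1 - 1 / r) :
    ∃ k, Nat.gcd n (A 1 t k) = 1 := by
  classical
  by_contra hcon
  push Not at hcon
  have hr0 : (0 : ℝ) < r := by exact_mod_cast hr.pos
  set L : ℕ := ∏ p ∈ n.primeFactors, rank p / r ^ (rank p).factorization r with hL
  have hrL : ¬ r ∣ L := by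
    rw [hL, Prime.dvd_finset_prod_iff hr.prime]
    rintro ⟨p, hp, hdvd⟩
    have hpp := Nat.prime_of_mem_primeFactors hp
    exact Nat.not_dvd_ordCompl hr (rank_spec p hpp).1.ne' hdvd
  have hr5 : ¬ r ∣ 5040 := fun h => by
    have := Nat.le_of_dvd (by norm_num) h
    omega
  set V : ℕ := n.primeFactors.sup (fun p => (rank p).factorization r) with hV
  set J : Finset ℕ := (range (r ^ (V + 1))).filter (fun j => ¬ r ∣ j) with hJ
  -- every good index is killed by a prime of the direction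
  have hkill : ∀ j ∈ J, ∃ p ∈ T, p ∣ A 1 t (5040 * L * j) := by
    intro j hj
    rw [hJ, mem_filter] at hj
    have hne := hcon (5040 * L * j)
    obtain ⟨p, hp, hpdvd⟩ := Nat.exists_prime_and_dvd hne
    have hpn : p ∣ n := hpdvd.trans (Nat.gcd_dvd_left _ _)
    have hpA : p ∣ A 1 t (5040 * L * j) := hpdvd.trans (Nat.gcd_dvd_right _ _)
    have hmem : p ∈ n.primeFactors := Nat.mem_primeFactors.mpr ⟨hp, hpn, by omega⟩
    have hrk : ¬ r ∣ 5040 * L * j := by
      intro h
      rcases (Nat.Prime.dvd_mul hr).mp h with h | h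
      · rcases (Nat.Prime.dvd_mul hr).mp h with h | h
        · exact hr5 h
        · exact hrL h
      · exact hj.2 h
    have hpart : rank p ∣ r ^ (rank p).factorization r * (5040 * L * j) := by
      have h1 : rank p / r ^ (rank p).factorization r ∣ L := Finset.dvd_prod_of_mem _ hmem
      have h2 : r ^ (rank p).factorization r * (rank p / r ^ (rank p).factorization r) = rank p :=
        Nat.ordProj_mul_ordCompl_eq_self _ _
      conv_lhs => rw [← h2]
      exact Nat.mul_dvd_mul_left _ ((h1.trans (Dvd.intro_left 5040 rfl)).trans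
        (Dvd.intro j rfl))
    refine ⟨p, (hT p).mpr ⟨hmem, ?_, 5040 * L * j, hrk, hpart, hpA⟩, hpA⟩
    by_contra hrp
    have h1 : (rank p).factorization r = 0 := Nat.factorization_eq_zero_of_not_dvd hrp
    rw [h1, pow_zero, one_mul] at hpart
    have h2 : p ∣ Nat.fib (5040 * L * j) := dvd_fib_of_rank p hp _ hpart
    have hpos : 0 < 5040 * L * j := by
      rcases Nat.eq_zero_or_pos (5040 * L * j) with h | h
      · exfalso
        apply hrk
        rw [h]
        exact dvd_zero r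
      · exact h
    obtain ⟨i, hi⟩ : ∃ i, 5040 * L * j = i + 1 := ⟨5040 * L * j - 1, by omega⟩
    rw [hi] at h2 hpA
    have e := add_formula (A 1 t) (A_rec 1 t) 0 i
    rw [zero_add] at e
    rw [e] at hpA
    have h3 : p ∣ A 1 t 0 * Nat.fib i := (Nat.dvd_add_left (dvd_mul_of_dvd_right h2 _)).mp hpA
    rcases (Nat.Prime.dvd_mul hp).mp h3 with h4 | h4
    · have h5 : A 1 t 0 = 1 * (2 * t - 1) := rfl
      rw [h5, one_mul] at h4
      exact hrp (hQ p hp h4)
    · exact Nat.not_coprime_of_dvd_of_dvd hp.one_lt h4 h2 (Nat.fib_coprime_fib_succ i)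
  -- each prime kills few indices
  have hfew : ∀ p ∈ T, (J.filter (fun j => p ∣ A 1 t (5040 * L * j))).card ≤
      r ^ (V + 1 - (rank p).factorization r) := by
    intro p hpT
    obtain ⟨hmem, hdir⟩ := (hT p).mp hpT
    have hp := Nat.prime_of_mem_primeFactors hmem
    have hle : (rank p).factorization r ≤ V :=
      Finset.le_sup (f := fun p => (rank p).factorization r) hmem
    apply card_class (r ^ (rank p).factorization r) _ (pow_pos hr.pos _)
    · intro j hj
      rw [mem_filter, hJ, mem_filter, mem_range] at hj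
      rw [← pow_add, Nat.add_sub_cancel' (by omega)]
      exact hj.1.1
    · have key : ∀ i m : ℕ, ¬ r ∣ i → p ∣ A 1 t (5040 * L * i) →
          p ∣ A 1 t (5040 * L * (i + m)) → i % r ^ (rank p).factorization r =
            (i + m) % r ^ (rank p).factorization r := by
        intro i m hi h1 h2
        rcases Nat.eq_zero_or_pos m with rfl | hm
        · rfl
        have hLpos : 0 < L := Nat.pos_of_ne_zero fun h => hrL (by rw [h]; exact dvd_zero r)
        have hp5 : p ≠ 5 := by
          rintro rfl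
          have hpM : 5 ∣ M := by
            unfold M
            norm_num
          exact good_M 1 t 5 (5040 * L * i) hp (by omega) rfl ht hpM
            (Dvd.intro (L * i) (by ring)) h1
        have h3 := two_terms 1 t p hp (by omega) (Nat.coprime_one_left t) hp5
          (5040 * L * i) (5040 * L * m) (Nat.mul_pos (by omega) hm) h1
          (by rw [← Nat.mul_add]; exact h2)
        have h4 := rank_dvd p hp _ h3
        have h5 : r ^ (rank p).factorization r ∣ 5040 * L * m := (Nat.ordProj_dvd _ _).trans h4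
        have h6 : Nat.Coprime (r ^ (rank p).factorization r) (5040 * L) := by
          apply Nat.Coprime.pow_left
          rw [Nat.Prime.coprime_iff_not_dvd hr]
          intro h
          rcases (Nat.Prime.dvd_mul hr).mp h with h | h
          · exact hr5 h
          · exact hrL h
        obtain ⟨q, hq⟩ := h6.dvd_of_dvd_mul_left h5
        rw [hq, Nat.add_mul_mod_self_left]
      intro i hi j hj
      rw [mem_filter, hJ, mem_filter] at hi hj
      rcases le_total i j with h | h
      · obtain ⟨m, rfl⟩ := Nat.exists_eq_add_of_le h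
        exact key i m hi.1.2 hi.2 hj.2
      · obtain ⟨m, rfl⟩ := Nat.exists_eq_add_of_le h
        exact (key j m hj.1.2 hj.2 hi.2).symm
  -- counting
  have hcount : J.card ≤ ∑ p ∈ T, r ^ (V + 1 - (rank p).factorization r) := by
    have h1 : J ⊆ T.biUnion (fun p => J.filter (fun j => p ∣ A 1 t (5040 * L * j))) := by
      intro j hj
      obtain ⟨p, hpT, hpA⟩ := hkill j hj
      rw [mem_biUnion]
      exact ⟨p, hpT, mem_filter.mpr ⟨hj, hpA⟩⟩
    exact (Finset.card_le_card h1).trans (Finset.card_biUnion_le.trans (Finset.sum_le_sum hfew))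
  have hcard := (card_not_dvd r V hr.two_le).trans hcount
  have hpw : r ^ V ≤ r ^ (V + 1) := Nat.pow_le_pow_right hr.pos (by omega)
  have hreal : (r : ℝ) ^ (V + 1) - (r : ℝ) ^ V ≤
      ∑ p ∈ T, (r : ℝ) ^ (V + 1 - (rank p).factorization r) := by
    have h1 : ((r ^ (V + 1) - r ^ V : ℕ) : ℝ) ≤
        ((∑ p ∈ T, r ^ (V + 1 - (rank p).factorization r) : ℕ) : ℝ) := by exact_mod_cast hcard
    rw [Nat.cast_sub hpw] at h1
    push_cast at h1
    exact h1
  have hsum2 : ∑ p ∈ T, (r : ℝ) ^ (V + 1 - (rank p).factorization r) =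
      (r : ℝ) ^ (V + 1) * ∑ p ∈ T, 1 / (r : ℝ) ^ (rank p).factorization r := by
    rw [Finset.mul_sum]
    apply Finset.sum_congr rfl
    intro p hpT
    have hmem := ((hT p).mp hpT).1
    have hle : (rank p).factorization r ≤ V :=
      Finset.le_sup (f := fun p => (rank p).factorization r) hmem
    rw [mul_one_div, eq_div_iff (by positivity), ← pow_add]
    congr 1
    omega
  rw [hsum2] at hreal
  have hpos : (0 : ℝ) < (r : ℝ) ^ (V + 1) := by positivity
  have h1 : (r : ℝ) ^ (V + 1) * (1 - 1 / r) = (r : ℝ) ^ (V + 1) - (r : ℝ) ^ V := by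
    rw [pow_succ]
    field_simp
  have h2 := mul_lt_mul_of_pos_left hsum hpos
  linarith

/-- the theorem on one direction -/
def St_V : Prop := ∀ K : ℕ, ∃ r : ℕ, K < r ∧ r.Prime ∧ ∃ a : ℕ → ℕ, (∀ n, a (n + 2) = a (n + 1) + a n) ∧
  (∀ k, 1 < a k ∧ ¬ (a k).Prime) ∧
  (∃ C : ℝ, ∀ v : ℕ, 1 ≤ v → ∀ T : Finset ℕ,
    (∀ p ∈ T, p.Prime ∧ Dir r a p ∧ (rank p).factorization r = v) → (T.card : ℝ) ≤ C * (r : ℝ) ^ v / v) ∧
  ∀ n : ℕ, 1 < n → ∀ T : Finset ℕ, (∀ p, p ∈ T ↔ p ∈ n.primeFactors ∧ Dir r a p) →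
    ∑ p ∈ T, 1 / (r : ℝ) ^ (rank p).factorization r < 1 - 1 / r → ∃ k, Nat.gcd n (a k) = 1

theorem thm_V : St_V := by
  intro K
  obtain ⟨r, t, hKr, hr5040, hr, hMt, ht, h0, hQ⟩ := anchor K
  refine ⟨r, hKr, hr, A 1 t, A_rec 1 t, fun k => ?_, ?_, fun n hn T hT hs =>
    good_direction r t hr hr5040 hMt ht hQ n hn T hT hs⟩
  · have hM := M_pos
    have h2t : 2 ≤ t := by omega
    rcases Nat.even_or_odd' k with ⟨j, rfl | rfl⟩
    · exact even_composite1 t h2t h0 j
    · exact odd_composite1 t hMt ht _ (by omega)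
  · have hM := M_pos
    have e0 : A 1 t 0 = 1 * (2 * t - 1) := rfl
    have e1 : A 1 t 1 = 1 ^ 2 + t ^ 2 := rfl
    have h01 : A 1 t 0 ≤ A 1 t 1 := by
      rw [e0, e1]
      have : 2 * t ≤ t ^ 2 + 1 := by nlinarith [sq_nonneg ((t : ℤ) - 1)]
      omega
    have h0pos : 0 < A 1 t 0 := by
      rw [e0]
      omega
    refine ⟨2 * Real.log ((A 1 t 0 + A 1 t 1 : ℕ) : ℝ) / Real.log r, fun v hv T hT => ?_⟩
    have hrv : 0 < r ^ v := pow_pos hr.pos v
    obtain ⟨w, hw⟩ : ∃ w, r ^ v = w + 1 := ⟨r ^ v - 1, by omega⟩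
    refine card_primes_le r v (xy (A 1 t 1 - A 1 t 0) (A 1 t 0) (r ^ v)).2
      (A 1 t 0 + A 1 t 1) hr.two_le hv ?_ (by omega) ?_ T ?_
    · rw [hw]
      exact xy_pos _ _ h0pos w
    · have h1 := xy_le (A 1 t 1 - A 1 t 0) (A 1 t 0) (r ^ v)
      have h2 : A 1 t 1 - A 1 t 0 + 2 * A 1 t 0 = A 1 t 0 + A 1 t 1 := by omega
      rw [h2] at h1
      omega
    · intro p hp
      obtain ⟨hpp, ⟨hrp, k, hrk, hpart, hpA⟩, hpv⟩ := hT p hp
      have hkpos : 0 < k := Nat.pos_of_ne_zero fun h => hrk (by rw [h]; exact dvd_zero r)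
      refine ⟨hpp, ?_, ?_⟩
      · apply dvd_xy (A 1 t) (A_rec 1 t) h01 p hpp k (r ^ v) hkpos hrv hpA
        apply dvd_fib_of_rank p hpp
        rw [hpv, mul_comm] at hpart
        exact hpart
      · have h1 : r ^ v ∣ rank p := by
          rw [← hpv]
          exact Nat.ordProj_dvd _ _
        exact (Nat.le_of_dvd (rank_spec p hpp).1 h1).trans (rank_le p hpp)

end Pool.Agent.CVD
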